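import Pool.Agent.V7H54.LocK
import Pool.Agent.N73.PF.Exq

/-!
# The residue field at the big prime over `𝔮 q`, general degree
-/

set_option autoImplicit false
set_option linter.all false

open Polynomial IsDedekindDomain NumberField
open scoped Classical

namespace Pool.Agent.V7H54.J

open Pool.Agent.V7H54
open Pool.Agent.N783.PF
open Pool.Agent.N73.PF (theta_ex hbar ex_psi eq_ker mem_or card_adj psi_surj)

/-- The residue field at the big prime (from the proof of CSQ of helper73). -/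
theorem card_big {F L : Type} [Field F] [NumberField F] [Field L] [NumberField L] [Algebra F L]
    {g : ℕ} {f : (𝓞 F)[X]} {θ : L} (hg : 1 ≤ g) (hG : IsGen g f θ) (hsq : SqF g f)
    {𝔭 : Ideal (𝓞 F)} (hprime : 𝔭.IsPrime) (hne : 𝔭 ≠ ⊥) {r : (𝓞 F)[X]} (hm : r.Monic)
    (hdeg : r.natDegree = 2 * g) (hirr : Irreducible (rd 𝔭 r)) (hcg : Cg 𝔭 f (X * r))
    {𝔓 : HeightOneSpectrum (𝓞 L)} (hov : Ov 𝔭 𝔓) (hv : 𝔓.valuation L θ = 1) :
    Nat.card (𝓞 L ⧸ 𝔓.asIdeal) = Nat.card (𝓞 F ⧸ 𝔭) ^ (2 * g) := by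
  have hmax : 𝔭.IsMaximal := hprime.isMaximal hne
  obtain ⟨hbd, hbX⟩ := hbar hmax hg hm hdeg
  obtain ⟨t, ht⟩ := theta_ex hG
  have hfb : rd 𝔭 f = X * rd 𝔭 r := by
    rw [Pool.Agent.N73.PF.map_eq_of_cg hcg, rd, Polynomial.map_mul, Polynomial.map_X]
  obtain ⟨ψ, hψ⟩ := ex_psi int hG hsq ht 𝔭 (rd 𝔭 r)
    (by rw [hfb]; exact ⟨X, Polynomial.X_mul⟩)
  have htn : t ∉ 𝔓.asIdeal := by
    rw [← ht] at hv
    exact 𝔓.valuation_eq_one_iff_notMem.mp hv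
  have hker : 𝔓.asIdeal = RingHom.ker ψ :=
    eq_ker int hG hsq ht hmax hirr hψ hov ((mem_or hG ht hcg hov).resolve_left htn)
  obtain ⟨c1, c4⟩ := card_adj hmax hne hirr
  rw [hker, Nat.card_congr (RingHom.quotientKerEquivOfSurjective (psi_surj hψ)).toEquiv, c1, hbd]

/-- Residue fields: if the residue field of `w'` has `q` elements, that of `𝔓` has `q ^ (2 g)` and
`[Ω : K] = 2 g + 1`, then the residue field of `𝔓'` is that of `𝔓`. -/
theorem card_eqG {K L Ω : Type} [Field K] [NumberField K] [Field L] [NumberField L] [Field Ω]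
    [NumberField Ω] [Algebra K Ω] [Algebra L Ω]
    {w' : HeightOneSpectrum (𝓞 K)} {𝔓 : HeightOneSpectrum (𝓞 L)} {𝔓' : HeightOneSpectrum (𝓞 Ω)}
    (h1 : Over w' 𝔓') (h2 : Over 𝔓 𝔓') {g : ℕ} (hg : 1 ≤ g)
    (h3 : Module.finrank K Ω = 2 * g + 1) {q : ℕ} (hq : 1 < q)
    (hw : Nat.card (𝓞 K ⧸ w'.asIdeal) = q) (hP : Nat.card (𝓞 L ⧸ 𝔓.asIdeal) = q ^ (2 * g)) :
    Nat.card (𝓞 Ω ⧸ 𝔓'.asIdeal) = Nat.card (𝓞 L ⧸ 𝔓.asIdeal) := by
  haveI := h1.liesOver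
  haveI := h2.liesOver
  haveI := w'.isMaximal
  have e1 : Ideal.absNorm 𝔓'.asIdeal = Ideal.absNorm w'.asIdeal ^ (w'.asIdeal.inertiaDeg' 𝔓'.asIdeal) :=
    Ideal.absNorm_eq_pow_inertiaDeg'_of_liesOver _ _ w'.isPrime w'.ne_bot
  have e2 : Ideal.absNorm 𝔓'.asIdeal = Ideal.absNorm 𝔓.asIdeal ^ (𝔓.asIdeal.inertiaDeg' 𝔓'.asIdeal) :=
    Ideal.absNorm_eq_pow_inertiaDeg'_of_liesOver _ _ 𝔓.isPrime 𝔓.ne_bot
  have e3 : w'.asIdeal.inertiaDeg' 𝔓'.asIdeal ≤ 2 * g + 1 := by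
    rw [← h3]
    haveI : NoZeroSMulDivisors (𝓞 K) (𝓞 Ω) := by
      constructor
      intro c x hcx
      rw [Algebra.smul_def, mul_eq_zero] at hcx
      rcases hcx with h | h
      · left
        exact (FaithfulSMul.algebraMap_injective (𝓞 K) (𝓞 Ω)) (by rw [h, map_zero])
      · right
        exact h
    exact Ideal.inertiaDeg_le_finrank (S := 𝓞 Ω) (K := K) (L := Ω) 𝔓'.asIdeal w'.ne_bot
  have e4 : Ideal.absNorm w'.asIdeal = q := by
    rw [Ideal.absNorm_apply, Submodule.cardQuot_apply]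
    exact hw
  have e5 : Ideal.absNorm 𝔓.asIdeal = q ^ (2 * g) := by
    rw [Ideal.absNorm_apply, Submodule.cardQuot_apply]
    exact hP
  have e7 : Ideal.absNorm 𝔓'.asIdeal ≠ 1 := by
    rw [Ne, Ideal.absNorm_eq_one_iff]
    exact 𝔓'.isPrime.ne_top
  rw [e5] at e2
  rw [e2, ← pow_mul, e4] at e1
  have e8 := Nat.pow_right_injective hq e1
  have e10 : 1 ≤ 𝔓.asIdeal.inertiaDeg' 𝔓'.asIdeal := by
    rcases Nat.eq_zero_or_pos (𝔓.asIdeal.inertiaDeg' 𝔓'.asIdeal) with h | h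
    · rw [h, pow_zero] at e2
      exact absurd e2 e7
    · exact h
  have e11 : 𝔓.asIdeal.inertiaDeg' 𝔓'.asIdeal = 1 := by
    nlinarith
  rw [e11, pow_one] at e2
  rw [Ideal.absNorm_apply, Submodule.cardQuot_apply] at e2
  rw [hP]
  exact e2

end Pool.Agent.V7H54.J
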