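import Pool.Agent.V7H54.ExsK

/-!
# The set `S` of primes which split completely in `K`, general degree
-/

set_option autoImplicit false
set_option linter.all false

open Polynomial IsDedekindDomain NumberField
open scoped Classical IntermediateField

namespace Pool.Agent.V7H54.J

open Pool.Agent.V7H54
open Pool.Agent.N922.PQ (Gen SplitMod)
open Pool.Agent.N783.PF (GoodS)

/-- EXS with respect to `K`. -/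
theorem exsG (g : ℕ) (hg : 1 ≤ g) (F K : Type) [Field F] [NumberField F] [Field K] [NumberField K] (W m : ℕ) :
    ∃ (S : Finset ℕ) (𝔮 : ℕ → Ideal (𝓞 F)) (h P : ℕ → (𝓞 F)[X]),
      GoodS g W S 𝔮 h P ∧ S.card = m ∧
      ∀ q ∈ S, ∀ 𝔔 : Ideal (𝓞 K), 𝔔.IsPrime → (q : 𝓞 K) ∉ 𝔔 ^ 2 ∧
        ((q : 𝓞 K) ∈ 𝔔 → Nat.card (𝓞 K ⧸ 𝔔) = q) := by
  obtain ⟨γ, G, δ, hG, -⟩ := Pool.Agent.N40.PQ.gen K
  obtain ⟨S, hS, hS2⟩ := splK K γ G δ hG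
    (W + 3 + 2 * g + (discr F).natAbs + (discr K).natAbs + δ.natAbs) m
  have hdata : ∀ q : ℕ, ∃ (𝔮 : Ideal (𝓞 F)) (h A : (𝓞 F)[X]), q ∈ S →
    (∀ 𝔭 : Ideal (𝓞 F), 𝔭.IsPrime → (q : 𝓞 F) ∉ 𝔭 ^ 2) ∧
    𝔮.IsPrime ∧ (q : 𝓞 F) ∈ 𝔮 ∧
    h.Monic ∧ h.natDegree = 2 * g ∧ Irreducible (Pool.Agent.N783.PF.rd 𝔮 h) ∧
    A.Monic ∧ A.natDegree = 2 * g + 1 ∧ A.coeff (2 * g) = 0 ∧
    Pool.Agent.N783.PF.Cg 𝔮 A (X * h) ∧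
    ∀ 𝔭 : Ideal (𝓞 F), 𝔭.IsPrime → (q : 𝓞 F) ∈ 𝔭 → 𝔭 ≠ 𝔮 →
      Irreducible (Pool.Agent.N783.PF.rd 𝔭 A) := by
    intro q
    by_cases hq : q ∈ S
    · obtain ⟨h1, h2, h3, h4⟩ := hS2 q hq
      obtain ⟨𝔮, h, A, hh⟩ := Pool.Agent.N710.PF.exists_data F g q hg h1 (by omega) (by omega)
      exact ⟨𝔮, h, A, fun _ => hh⟩
    · exact ⟨⊥, 0, 0, fun h => absurd h hq⟩
  choose 𝔮 h A hh using hdata
  refine ⟨S, 𝔮, h, A, fun q hq => ?_, hS, fun q hq 𝔔 h𝔔 => ⟨?_, fun hm => ?_⟩⟩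
  · obtain ⟨h1, h2, h3, h4⟩ := hS2 q hq
    exact ⟨h1, by omega, by omega, h3, hh q hq⟩
  · obtain ⟨h1, h2, h3, h4⟩ := hS2 q hq
    exact Pool.Agent.N710.PF.not_mem_sq h1 (by omega) h𝔔
  · obtain ⟨h1, h2, h3, h4⟩ := hS2 q hq
    refine card_split hG h1 h4 ?_ 𝔔 h𝔔 hm
    intro hd
    have h5 := Int.le_of_dvd (Int.natAbs_pos.2 hG.ne |> fun h => by exact_mod_cast h)
      ((Int.dvd_natAbs.2 hd))
    omega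

end Pool.Agent.V7H54.J
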