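import Pool.Agent.V7H54.J.Irr
import Pool.Agent.V7H54.Gf2

/-!
# A polynomial irreducible modulo the primes over small primes, general degree
-/

set_option autoImplicit false
set_option linter.all false

open Polynomial NumberField IsDedekindDomain
open scoped Classical

namespace Pool.Agent.V7H54.J

open Pool.Agent.V7H54
open Pool.Agent.N951.PF
open Pool.Agent.N352.PJ (dd pol dis Dy D2)
open Pool.Agent.N352.PF (dg Bal nv rv Bz Bx)
open Pool.Agent.N783.PF (Bd Cg sp rd Ht GoodS GoodF Fam)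

variable {F : Type} [Field F] [NumberField F]

/-- `f₁` is irreducible modulo the primes containing `W`. -/
structure GFG (g N W : ℕ) (f₁ : (𝓞 F)[X]) : Prop where
  mon : f₁.Monic
  deg : f₁.natDegree = 2 * g + 1
  tr : f₁.coeff (2 * g) = 0
  pos : 0 < W
  two : 2 ∣ W
  irr : ∀ v : HeightOneSpectrum (𝓞 F), (W : 𝓞 F) ∈ v.asIdeal → Irreducible (rv v f₁)
  all : ∀ p : ℕ, p.Prime → p ≤ N → p ∣ W

theorem rv_pol {g : ℕ} (v : HeightOneSpectrum (𝓞 F)) (a : Fin (2 * g) → 𝓞 F)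
    {r : (𝓞 F ⧸ v.asIdeal)[X]} (hm : r.Monic) (hd : r.natDegree = 2 * g + 1)
    (ht : r.coeff (2 * g) = 0) (h : ∀ j : Fin (2 * g), Ideal.Quotient.mk v.asIdeal (a j) = r.coeff j) :
    rv v (pol a) = r := by
  ext n
  rw [rv, coeff_map, pol_coeff]
  split_ifs with h1 h2
  · rw [h1, map_one]
    have := hm.coeff_natDegree
    rw [hd] at this
    exact this.symm
  · exact h ⟨n, h2⟩
  · rw [map_zero]
    rcases Nat.lt_trichotomy n (2 * g) with h3 | h3 | h3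
    · exact absurd h3 h2
    · rw [h3, ht]
    · rw [coeff_eq_zero_of_natDegree_lt]
      rw [hd]
      omega

theorem gfG (g : ℕ) (hg : 1 ≤ g) (F : Type) [Field F] [NumberField F] (N : ℕ) :
    ∃ (W : ℕ) (f₁ : (𝓞 F)[X]), GFG g N W f₁ := by
  obtain ⟨W, hW⟩ : ∃ W : ℕ, W = 2 * N.factorial := ⟨_, rfl⟩
  have hW0 : 0 < W := by
    rw [hW]
    exact Nat.mul_pos (by norm_num) N.factorial_pos
  have hex : ∀ v : HeightOneSpectrum (𝓞 F), ∃ r : (𝓞 F ⧸ v.asIdeal)[X], r.Monic ∧ Irreducible r ∧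
      r.natDegree = 2 * g + 1 ∧ r.coeff (2 * g) = 0 := by
    intro v
    haveI := v.isMaximal
    letI : Field (𝓞 F ⧸ v.asIdeal) := Ideal.Quotient.field v.asIdeal
    haveI : Finite (𝓞 F ⧸ v.asIdeal) := v.asIdeal.finiteQuotientOfFreeOfNeBot v.ne_bot
    obtain ⟨r, h1, h2, h3, h4⟩ := exists_tr0 (𝓞 F ⧸ v.asIdeal) (2 * g + 1) (by omega)
    exact ⟨r, h1, h2, h3, h4⟩
  choose r hr1 hr2 hr3 hr4 using hex
  have hWne : Ideal.span {(W : 𝓞 F)} ≠ 0 := by
    rw [Ne, Ideal.zero_eq_bot, Ideal.span_singleton_eq_bot]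
    exact_mod_cast hW0.ne'
  have hfinS := Ideal.finite_factors hWne
  set T : Finset (HeightOneSpectrum (𝓞 F)) := hfinS.toFinset with hT
  have hmem : ∀ v : HeightOneSpectrum (𝓞 F), (W : 𝓞 F) ∈ v.asIdeal → v ∈ T := by
    intro v hv
    rw [hT, Set.Finite.mem_toFinset, Set.mem_setOf_eq, Ideal.dvd_span_singleton]
    exact hv
  have hcrt : ∀ j : Fin (2 * g), ∃ a : 𝓞 F, ∀ v ∈ T,
      Ideal.Quotient.mk v.asIdeal a = (r v).coeff j := by
    intro j
    choose c hc using fun v : HeightOneSpectrum (𝓞 F) =>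
      Ideal.Quotient.mk_surjective (I := v.asIdeal) ((r v).coeff j)
    obtain ⟨a, ha⟩ := IsDedekindDomain.exists_forall_sub_mem_ideal (s := T)
      (fun v => v.asIdeal) (fun _ => 1) (fun v _ => v.prime)
      (fun v _ w _ hvw h => hvw (HeightOneSpectrum.ext h)) (fun v => c v)
    refine ⟨a, fun v hv => ?_⟩
    rw [← hc v]
    have := ha v hv
    rw [pow_one] at this
    exact Ideal.Quotient.eq.2 this
  choose a ha using hcrt
  refine ⟨W, pol a, pol_monic a, pol_natDegree a, pol_coeff_tr a, hW0, ?_, ?_, ?_⟩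
  · rw [hW]
    exact dvd_mul_right _ _
  · intro v hv
    rw [rv_pol v a (hr1 v) (hr3 v) (hr4 v) fun j => ha j v (hmem v hv)]
    exact hr2 v
  · intro p hp hpN
    rw [hW]
    exact Dvd.dvd.mul_left ((hp.dvd_factorial).2 hpN) _

namespace GFG

variable {g N W : ℕ} {f₁ : (𝓞 F)[X]}

theorem good (h : GFG g N W f₁) : GoodF g W f₁ := by
  have hne : ∀ (𝔭 : Ideal (𝓞 F)) (n : ℕ), 0 < n → (n : 𝓞 F) ∈ 𝔭 → 𝔭 ≠ ⊥ := by
    intro 𝔭 n hn hm h0
    rw [h0, Ideal.mem_bot] at hm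
    have : n = 0 := by exact_mod_cast hm
    omega
  refine ⟨h.mon, h.deg, h.tr, h.pos, h.two, ?_, ?_⟩
  · intro 𝔭 hp h2m
    have hb : 𝔭 ≠ ⊥ := hne 𝔭 2 two_pos (by exact_mod_cast h2m)
    refine h.irr ⟨𝔭, hp, hb⟩ ?_
    obtain ⟨m, hm⟩ := h.two
    rw [hm]
    push_cast
    exact Ideal.mul_mem_right _ _ h2m
  · intro 𝔭 hp hWm
    have hb : 𝔭 ≠ ⊥ := hne 𝔭 W h.pos hWm
    haveI : Finite (𝓞 F ⧸ 𝔭) := 𝔭.finiteQuotientOfFreeOfNeBot hb
    haveI : IsDomain (𝓞 F ⧸ 𝔭) := Ideal.Quotient.isDomain 𝔭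
    exact Pool.Agent.N951.PF.sep_of_irr (h.irr ⟨𝔭, hp, hb⟩ hWm)

/-- transfer to the polynomials of the family -/
theorem irr_of (h : GFG g N W f₁) {f : (𝓞 F)[X]} (hc : Cg (sp F W) f f₁)
    (v : HeightOneSpectrum (𝓞 F)) (hv : (W : 𝓞 F) ∈ v.asIdeal) : Irreducible (rd v.asIdeal f) := by
  have e : rd v.asIdeal f = rv v f₁ := by
    ext j
    rw [rd, rv, coeff_map, coeff_map]
    exact Ideal.Quotient.eq.2 ((Ideal.span_singleton_le_iff_mem _).2 hv (hc j))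
  rw [e]
  exact h.irr v hv

end GFG

end Pool.Agent.V7H54.J
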