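import Pool.Agent.N738.PJ.Exs

/-!
# Irreducible polynomials with trace zero over finite fields, in all characteristics
-/

set_option autoImplicit false
set_option linter.all false

open Polynomial
open scoped IntermediateField

namespace Pool.Agent.V7H54.J

theorem exists_tr0 (k : Type) [Field k] [Finite k] (n : ℕ) (hn : 3 ≤ n) :
    ∃ r : k[X], r.Monic ∧ Irreducible r ∧ r.natDegree = n ∧ r.coeff (n - 1) = 0 := by
  obtain ⟨f, h1, h2, h3⟩ := Pool.Agent.N738.PJ.exists_irr k n (by omega)
  haveI : Fact (Irreducible f) := ⟨h2⟩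
  obtain ⟨E, iE, iA, iF, hfr⟩ : ∃ (E : Type) (_ : Field E) (_ : Algebra k E)
      (_ : FiniteDimensional k E), Module.finrank k E = n := by
    refine ⟨AdjoinRoot f, inferInstance, inferInstance, (AdjoinRoot.powerBasis h2.ne_zero).finite, ?_⟩
    rw [(AdjoinRoot.powerBasis h2.ne_zero).finrank, AdjoinRoot.powerBasis_dim, h3]
  haveI : Finite E := Module.finite_of_finite k
  letI : Fintype k := Fintype.ofFinite k
  letI : Fintype E := Fintype.ofFinite E
  classical
  obtain ⟨q, hq⟩ : ∃ q, q = Fintype.card k := ⟨_, rfl⟩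
  have hq2 : 2 ≤ q := by
    rw [hq]
    exact Fintype.one_lt_card
  -- the elements of trace zero
  obtain ⟨T, hT⟩ : ∃ T : Submodule k E, T = LinearMap.ker (Algebra.trace k E) := ⟨_, rfl⟩
  have hTr : n - 1 ≤ Module.finrank k T := by
    have h4 := LinearMap.finrank_range_add_finrank_ker (Algebra.trace k E)
    have h5 : Module.finrank k (LinearMap.range (Algebra.trace k E)) ≤ 1 := by
      have := Submodule.finrank_le (LinearMap.range (Algebra.trace k E))
      rwa [Module.finrank_self] at this
    rw [hfr, ← hT] at h4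
    omega
  have hTc : q ^ (n - 1) ≤ Fintype.card T := by
    rw [Module.card_eq_pow_finrank (K := k) (V := T), ← hq]
    exact Nat.pow_le_pow_right (by omega) hTr
  -- elements of proper subfields
  have hdeg : ∀ x : E, (minpoly k x).natDegree ≠ n → ∃ d ∈ Finset.Icc 1 (n / 2), x ^ q ^ d = x := by
    intro x hx
    obtain ⟨d, hd⟩ : ∃ d, d = (minpoly k x).natDegree := ⟨_, rfl⟩
    have hint : IsIntegral k x := Algebra.IsIntegral.isIntegral x
    have h4 : Module.finrank k k⟮x⟯ = d := by
      rw [IntermediateField.adjoin.finrank hint, hd]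
    have h5 : d ∣ n := by
      rw [← h4, ← hfr]
      exact ⟨_, (Module.finrank_mul_finrank k k⟮x⟯ E).symm⟩
    have h6 : 0 < d := by
      rw [hd]
      exact minpoly.natDegree_pos hint
    have h7 : d ≤ n / 2 := by
      obtain ⟨e, he⟩ := h5
      rw [← hd] at hx
      have : 2 ≤ e := by
        rcases Nat.lt_or_ge e 2 with h8 | h8
        · interval_cases e
          · omega
          · exact absurd (by omega) hx
        · exact h8
      rw [Nat.le_div_iff_mul_le (by norm_num), he]
      exact Nat.mul_le_mul_left d this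
    refine ⟨d, Finset.mem_Icc.2 ⟨h6, h7⟩, ?_⟩
    letI : Fintype k⟮x⟯ := Fintype.ofFinite _
    have h8 := FiniteField.pow_card (IntermediateField.AdjoinSimple.gen k x)
    have h9 : Fintype.card k⟮x⟯ = q ^ d := by
      rw [Module.card_eq_pow_finrank (K := k) (V := k⟮x⟯), h4, hq]
    rw [h9] at h8
    have h10 := congrArg (algebraMap k⟮x⟯ E) h8
    rw [map_pow, IntermediateField.AdjoinSimple.algebraMap_gen] at h10
    exact h10
  obtain ⟨x, hxT, hxn⟩ : ∃ x ∈ T, (minpoly k x).natDegree = n := by
    by_contra hcon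
    push Not at hcon
    have hsub : (Finset.univ.image (fun x : T => (x : E))) ⊆
        (Finset.Icc 1 (n / 2)).biUnion fun d => (X ^ q ^ d - X : E[X]).roots.toFinset := by
      intro x hx
      rw [Finset.mem_image] at hx
      obtain ⟨y, -, rfl⟩ := hx
      obtain ⟨d, hd, hxd⟩ := hdeg y (hcon y y.2)
      rw [Finset.mem_biUnion]
      refine ⟨d, hd, ?_⟩
      have hd1 := (Finset.mem_Icc.1 hd).1
      rw [Multiset.mem_toFinset, mem_roots (FiniteField.X_pow_card_pow_sub_X_ne_zero E
        (by omega) (by omega))]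
      rw [IsRoot.def, eval_sub, eval_pow, eval_X, hxd, sub_self]
    have hc := Finset.card_le_card hsub
    rw [Finset.card_image_of_injective _ Subtype.val_injective, Finset.card_univ] at hc
    have hb : ((Finset.Icc 1 (n / 2)).biUnion fun d =>
        (X ^ q ^ d - X : E[X]).roots.toFinset).card ≤ ∑ d ∈ Finset.Icc 1 (n / 2), q ^ d := by
      refine Finset.card_biUnion_le.trans (Finset.sum_le_sum fun d hd => ?_)
      have hd1 := (Finset.mem_Icc.1 hd).1
      refine (Multiset.toFinset_card_le _).trans ((card_roots' _).trans ?_)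
      rw [FiniteField.X_pow_card_pow_sub_X_natDegree_eq E (by omega) (by omega)]
    have hs : ∀ m : ℕ, ∑ d ∈ Finset.Icc 1 m, q ^ d < q ^ (m + 1) := by
      intro m
      induction m with
      | zero => simp; omega
      | succ m ih =>
        rw [Finset.sum_Icc_succ_top (by omega), pow_succ q (m + 1)]
        have : 2 * q ^ (m + 1) ≤ q ^ (m + 1) * q := by
          rw [mul_comm]
          exact Nat.mul_le_mul_left _ hq2
        omega
    have h4 := hs (n / 2)
    have h5 : q ^ (n / 2 + 1) ≤ q ^ (n - 1) := Nat.pow_le_pow_right (by omega) (by omega)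
    omega
  have hint : IsIntegral k x := Algebra.IsIntegral.isIntegral x
  refine ⟨minpoly k x, minpoly.monic hint, minpoly.irreducible hint, hxn, ?_⟩
  have htr : Algebra.trace k E x = 0 := by
    rw [hT] at hxT
    exact hxT
  have h4 : Module.finrank k⟮x⟯ E = 1 := by
    have h5 := Module.finrank_mul_finrank k k⟮x⟯ E
    rw [IntermediateField.adjoin.finrank hint, hxn, hfr] at h5
    exact Nat.eq_of_mul_eq_mul_left (by omega : 0 < n) (by rw [h5, mul_one])
  have h6 := trace_eq_finrank_mul_minpoly_nextCoeff k x
  rw [h4, htr, Nat.cast_one, one_mul] at h6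
  have h7 : (minpoly k x).nextCoeff = 0 := by
    have := h6.symm
    rwa [neg_eq_zero] at this
  rw [nextCoeff_of_natDegree_pos (by omega), hxn] at h7
  exact h7

end Pool.Agent.V7H54.J
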