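import Pool.Agent.V7H54.Ram2

/-!
# The real places: polynomials of odd degree with one real root
-/

set_option autoImplicit false
set_option linter.all false

open Polynomial
open scoped Classical

namespace Pool.Agent.V7H54.J

/-- Norms and base change. -/
theorem norm_base {F L E : Type} [Field F] [Field L] [Algebra F L] [Field E] [Algebra F E]
    {m : ℕ} {f : F[X]} (hm : f.Monic) (hd : f.natDegree = m) {θ : L} (b : Module.Basis (Fin m) F L)
    (hb : ∀ i, b i = θ ^ (i : ℕ)) (hθ : aeval θ f = 0) (h : F[X]) :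
    Algebra.norm E (AdjoinRoot.mk (f.map (algebraMap F E)) (h.map (algebraMap F E))) =
      algebraMap F E (Algebra.norm F (aeval θ h)) := by
  let pb : PowerBasis F L := { gen := θ, dim := m, basis := b, basis_eq_pow := hb }
  have hint : IsIntegral F pb.gen := pb.isIntegral_gen
  have hmin : minpoly F pb.gen = f := by
    refine (Polynomial.eq_of_monic_of_dvd_of_natDegree_le (minpoly.monic hint) hm
      (minpoly.dvd F _ hθ) ?_).symm
    rw [pb.natDegree_minpoly, hd]
  have hroot : aeval (AdjoinRoot.root (f.map (algebraMap F E))) (minpoly F pb.gen) = 0 := by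
    rw [hmin, ← aeval_map_algebraMap E, AdjoinRoot.aeval_eq, AdjoinRoot.mk_self]
  let φ : L →ₐ[F] AdjoinRoot (f.map (algebraMap F E)) := pb.lift _ hroot
  have hφ : φ θ = AdjoinRoot.root (f.map (algebraMap F E)) := pb.lift_gen _ hroot
  have hφh : φ (aeval θ h) =
      AdjoinRoot.mk (f.map (algebraMap F E)) (h.map (algebraMap F E)) := by
    rw [← aeval_algHom_apply, hφ, ← aeval_map_algebraMap E, AdjoinRoot.aeval_eq]
  rw [← hφh]
  -- bases
  have hmE : (f.map (algebraMap F E)).Monic := hm.map _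
  have hdE : (f.map (algebraMap F E)).natDegree = m := by rw [hm.natDegree_map, hd]
  let b' : Module.Basis (Fin m) E (AdjoinRoot (f.map (algebraMap F E))) :=
    (AdjoinRoot.powerBasis hmE.ne_zero).basis.reindex (finCongr (by
      rw [AdjoinRoot.powerBasis_dim, hdE]))
  have hb' : ∀ i, b' i = φ (b i) := by
    intro i
    rw [hb, map_pow, hφ]
    change ((AdjoinRoot.powerBasis hmE.ne_zero).basis.reindex _) i = _
    rw [Module.Basis.reindex_apply, PowerBasis.basis_eq_pow]
    rfl
  rw [Algebra.norm_eq_matrix_det b', Algebra.norm_eq_matrix_det b, RingHom.map_det]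
  congr 1
  ext i j
  rw [Algebra.leftMulMatrix_eq_repr_mul, RingHom.mapMatrix_apply, Matrix.map_apply,
    Algebra.leftMulMatrix_eq_repr_mul]
  have h1 : φ (aeval θ h) * b' j =
      ∑ k, (algebraMap F E (b.repr (aeval θ h * b j) k)) • b' k := by
    rw [hb', ← map_mul]
    conv_lhs => rw [← b.sum_repr (aeval θ h * b j)]
    rw [map_sum]
    refine Finset.sum_congr rfl fun k _ => ?_
    rw [map_smul, hb', algebraMap_smul]
  rw [h1, map_sum, Finsupp.finset_sum_apply]
  simp only [map_smul, Module.Basis.repr_self, Finsupp.smul_single, smul_eq_mul, mul_one]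
  rw [Finset.sum_eq_single i]
  · rw [Finsupp.single_eq_same]
  · intro k _ hk
    rw [Finsupp.single_eq_of_ne]
    exact fun h => hk h.symm
  · intro h
    exact absurd (Finset.mem_univ _) h

/-- Square roots modulo an irreducible real polynomial. -/
theorem sqrt_irr {p h : ℝ[X]} (hp : Irreducible p) (hpos : ∀ x : ℝ, eval x p = 0 → 0 < eval x h) :
    ∃ s : ℝ[X], p ∣ h - s ^ 2 := by
  have hdeg : p.degree ≠ 0 := hp.degree_pos.ne'
  obtain ⟨z, hz⟩ := IsAlgClosed.exists_aeval_eq_zero ℂ p hdeg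
  have key : ∀ g : ℝ[X], aeval z g = 0 → p ∣ g := by
    intro g hg
    have h1 := minpoly.dvd ℝ z hg
    have h2 := minpoly.eq_of_irreducible hp hz
    rw [← h2] at h1
    exact (dvd_mul_right p _).trans h1
  by_cases hi : z.im = 0
  · obtain ⟨x, rfl⟩ : ∃ x : ℝ, (x : ℂ) = z := ⟨z.re, Complex.ext (by simp) (by simp [hi])⟩
    have hev : ∀ g : ℝ[X], aeval (x : ℂ) g = ((eval x g : ℝ) : ℂ) := fun g =>
      aeval_algebraMap_apply ℂ x g
    have hx : eval x p = 0 := by
      have := hev p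
      rw [hz] at this
      exact_mod_cast this.symm
    refine ⟨C (Real.sqrt (eval x h)), key _ ?_⟩
    rw [hev, eval_sub, eval_pow, eval_C, Real.sq_sqrt (hpos x hx).le, sub_self]
    simp
  · obtain ⟨ζ, hζ⟩ : ∃ ζ : ℂ, ζ ^ 2 = aeval z h :=
      IsAlgClosed.exists_pow_nat_eq (aeval z h) (n := 2) (by norm_num)
    obtain ⟨c, hc⟩ : ∃ c : ℝ, c = ζ.im / z.im := ⟨_, rfl⟩
    obtain ⟨b, hb⟩ : ∃ b : ℝ, b = ζ.re - c * z.re := ⟨_, rfl⟩
    have hbc : (b : ℂ) + c * z = ζ := by
      apply Complex.ext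
      · simp [hb]
      · simp [hc]
        field_simp
    refine ⟨C b + C c * X, key _ ?_⟩
    rw [map_sub, map_pow, map_add, map_mul, aeval_C, aeval_C, aeval_X, ← hζ]
    change ζ ^ 2 - ((b : ℂ) + c * z) ^ 2 = 0
    rw [hbc, sub_self]

/-- Square roots modulo a squarefree real polynomial. -/
theorem sqrt_sqf {h : ℝ[X]} : ∀ (n : ℕ) (p : ℝ[X]), p.natDegree ≤ n → Squarefree p → p ≠ 0 →
    (∀ x : ℝ, eval x p = 0 → 0 < eval x h) → ∃ s : ℝ[X], p ∣ h - s ^ 2 := by
  intro n
  induction n with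
  | zero =>
    intro p hn _ h0 _
    refine ⟨0, ?_⟩
    have : IsUnit p := by
      rw [Polynomial.isUnit_iff_degree_eq_zero]
      rw [degree_eq_natDegree h0]
      have : p.natDegree = 0 := by omega
      rw [this]
      rfl
    exact this.dvd
  | succ n ih =>
    intro p hn hs h0 hpos
    by_cases hu : IsUnit p
    · exact ⟨0, hu.dvd⟩
    obtain ⟨q, hq, r, rfl⟩ := WfDvdMonoid.exists_irreducible_factor hu h0
    have hr0 : r ≠ 0 := right_ne_zero_of_mul h0
    have hq0 : q ≠ 0 := hq.ne_zero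
    have hdr : r.natDegree ≤ n := by
      rw [natDegree_mul hq0 hr0] at hn
      have := hq.natDegree_pos
      omega
    have hsr : Squarefree r := hs.of_mul_right
    obtain ⟨s₂, h₂⟩ := ih r hdr hsr hr0 (fun x hx => hpos x (by rw [eval_mul, hx, mul_zero]))
    obtain ⟨s₁, h₁⟩ := sqrt_irr (h := h) hq (fun x hx => hpos x (by rw [eval_mul, hx, zero_mul]))
    have hco : IsCoprime q r := by
      refine (hq.coprime_iff_not_dvd).2 fun h3 => ?_
      obtain ⟨t, ht⟩ := h3
      exact hq.not_isUnit (hs q ⟨t, by rw [ht]; ring⟩)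
    obtain ⟨a, b, hab⟩ := hco
    refine ⟨s₁ * (b * r) + s₂ * (a * q), ?_⟩
    refine IsCoprime.mul_dvd ⟨a, b, hab⟩ ?_ ?_
    · have e : h - (s₁ * (b * r) + s₂ * (a * q)) ^ 2 = (h - s₁ ^ 2) +
          (s₁ - (s₁ * (b * r) + s₂ * (a * q))) * (s₁ + (s₁ * (b * r) + s₂ * (a * q))) := by ring
      rw [e]
      refine dvd_add h₁ (Dvd.dvd.mul_right ?_ _)
      have e2 : s₁ - (s₁ * (b * r) + s₂ * (a * q)) = q * (a * (s₁ - s₂)) := by
        linear_combination (-s₁) * hab
      rw [e2]
      exact dvd_mul_right _ _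
    · have e : h - (s₁ * (b * r) + s₂ * (a * q)) ^ 2 = (h - s₂ ^ 2) +
          (s₂ - (s₁ * (b * r) + s₂ * (a * q))) * (s₂ + (s₁ * (b * r) + s₂ * (a * q))) := by ring
      rw [e]
      refine dvd_add h₂ (Dvd.dvd.mul_right ?_ _)
      have e2 : s₂ - (s₁ * (b * r) + s₂ * (a * q)) = r * (b * (s₂ - s₁)) := by
        linear_combination (-s₂) * hab
      rw [e2]
      exact dvd_mul_right _ _

/-- At a real place at which `f` (of odd degree, separable) has only one root, a class of square norm is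
a square. -/
theorem real_sqG {F L : Type} [Field F] [Field L] [Algebra F L]
    {m : ℕ} {f : F[X]} (hm : f.Monic) (hd : f.natDegree = m) (hodd : Odd m) {θ : L}
    (b : Module.Basis (Fin m) F L) (hb : ∀ i, b i = θ ^ (i : ℕ)) (hθ : aeval θ f = 0)
    (hsep : f.Separable) (σ : F →+* ℝ)
    (hone : ∀ x y : ℝ, eval x (f.map σ) = 0 → eval y (f.map σ) = 0 → x = y) (h : F[X])
    (hcop : IsCoprime f h) (hN : IsSquare (Algebra.norm F (aeval θ h))) :
    ∃ s : ℝ[X], f.map σ ∣ h.map σ - s ^ 2 := by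
  letI : Algebra F ℝ := σ.toAlgebra
  have hm' : (f.map σ).Monic := hm.map _
  have hsq : Squarefree (f.map σ) := (hsep.map (f := σ)).squarefree
  have hcop' : IsCoprime (f.map σ) (h.map σ) := hcop.map (mapRingHom σ)
  have hne : ∀ x : ℝ, eval x (f.map σ) = 0 → eval x (h.map σ) ≠ 0 := by
    intro x hx hx'
    obtain ⟨u, v, huv⟩ := hcop'
    have := congrArg (eval x) huv
    rw [eval_add, eval_mul, eval_mul, hx, hx', mul_zero, mul_zero, add_zero, eval_one] at this
    exact zero_ne_one this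
  refine sqrt_sqf _ (f.map σ) le_rfl hsq hm'.ne_zero ?_
  intro x hx
  by_contra hneg
  have hlt : eval x (h.map σ) < 0 := lt_of_le_of_ne (not_lt.1 hneg) (hne x hx)
  obtain ⟨s, hs⟩ := sqrt_sqf (h := -(h.map σ)) _ (f.map σ) le_rfl hsq hm'.ne_zero (by
    intro y hy
    rw [← hone x y hx hy, eval_neg]
    linarith)
  have h1 := norm_base (E := ℝ) hm hd b hb hθ h
  have h2 : AdjoinRoot.mk (f.map (algebraMap F ℝ)) (-(h.map (algebraMap F ℝ))) =
      AdjoinRoot.mk (f.map (algebraMap F ℝ)) s ^ 2 := by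
    rw [← map_pow, ← sub_eq_zero, ← map_sub, AdjoinRoot.mk_eq_zero]
    exact hs
  have h3 : AdjoinRoot.mk (f.map (algebraMap F ℝ)) (-(h.map (algebraMap F ℝ))) =
      algebraMap ℝ _ (-1) * AdjoinRoot.mk (f.map (algebraMap F ℝ)) (h.map (algebraMap F ℝ)) := by
    rw [map_neg, map_neg, map_one, neg_one_mul]
  have h4 := congrArg (Algebra.norm ℝ) h2
  rw [h3, map_mul, map_pow, h1, Algebra.norm_algebraMap] at h4
  have hfr : Module.finrank ℝ (AdjoinRoot (f.map (algebraMap F ℝ))) = m := by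
    rw [(AdjoinRoot.powerBasis (show f.map (algebraMap F ℝ) ≠ 0 from hm'.ne_zero)).finrank,
      AdjoinRoot.powerBasis_dim, hm.natDegree_map, hd]
  rw [hfr, hodd.neg_one_pow] at h4
  obtain ⟨c, hc⟩ := hN
  have h5 : algebraMap F ℝ (Algebra.norm F (aeval θ h)) = σ c * σ c := by
    rw [hc, map_mul]
    rfl
  rw [h5] at h4
  have h9 := sq_nonneg (Algebra.norm ℝ (AdjoinRoot.mk (f.map (algebraMap F ℝ)) s))
  have h10 := mul_self_nonneg (σ c)
  have h6 : σ c = 0 := by
    have : σ c * σ c = 0 := by linarith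
    exact mul_self_eq_zero.1 this
  have h7 : c = 0 := (map_eq_zero σ).1 h6
  rw [h7, mul_zero] at hc
  have h8 : aeval θ h ≠ 0 := by
    intro h0
    obtain ⟨u, v, huv⟩ := hcop
    have := congrArg (aeval θ) huv
    rw [map_add, map_mul, map_mul, hθ, h0, mul_zero, mul_zero, add_zero, map_one] at this
    exact zero_ne_one this
  haveI : FiniteDimensional F L := Module.Finite.of_basis b
  exact h8 (Algebra.norm_eq_zero_iff.1 hc)

end Pool.Agent.V7H54.J
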