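import Pool.Agent.V7H54.G4

/-!
# Primes with the same completion
-/

set_option autoImplicit false
set_option linter.all false

open Polynomial IsDedekindDomain NumberField WithZero Filter Topology
open scoped Classical

namespace Pool.Agent.V7H54.J

open Pool.Agent.V7H54
open Pool.Agent.V7H54.V3 (cau val_j)
open Pool.Agent.N783.PQ (LocIm)
open Pool.Agent.N874.JM (LocF)
open Pool.Agent.N704.PP (vx near near_one)

/-- A dense isometric extension of a complete field is trivial. -/
theorem surj_of_dense {E E' : Type} [Field E] [Valued E (WithZero (Multiplicative ℤ))]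
    [CompleteSpace E] [Field E'] {v' : Valuation E' (WithZero (Multiplicative ℤ))} {ι : E →+* E'}
    (hv : ∀ x, v' (ι x) = Valued.v (R := E) x) {a : E}
    (ha : Valued.v (R := E) a = exp (-1 : ℤ))
    (hd : ∀ t : E', t ≠ 0 → ∃ s : E, v' (t - ι s) < v' t) : Function.Surjective ι := by
  have ha0 : a ≠ 0 := by
    rintro rfl
    rw [map_zero] at ha
    exact exp_ne_zero ha.symm
  have hstep : ∀ t : E', ∃ s : E, Valued.v (R := E) s ≤ v' t ∧ v' (t - ι s) ≤ v' t * exp (-1 : ℤ) := by
    intro t
    by_cases ht : t = 0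
    · refine ⟨0, by simp, ?_⟩
      rw [ht]
      simp
    · obtain ⟨s, hs⟩ := hd t ht
      have ht0 : v' t ≠ 0 := (Valuation.ne_zero_iff _).2 ht
      refine ⟨s, ?_, ?_⟩
      · rw [← hv]
        have e : ι s = t - (t - ι s) := by ring
        rw [e]
        exact (Valuation.map_sub _ _ _).trans (max_le le_rfl hs.le)
      · by_cases h0 : v' (t - ι s) = 0
        · rw [h0]
          exact zero_le
        · rw [← exp_log h0, ← exp_log ht0, ← exp_add, exp_le_exp]
          rw [← exp_log h0, ← exp_log ht0, exp_lt_exp] at hs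
          omega
  choose nx hnx1 hnx2 using hstep
  -- small elements
  have hsmall : ∀ y : E', v' y ≤ exp (-1 : ℤ) → ∃ x : E, ι x = y := by
    intro y hy
    obtain ⟨z, z0, zs⟩ : ∃ z : ℕ → E, z 0 = 0 ∧ ∀ n, z (n + 1) = z n + nx (y - ι (z n)) :=
      ⟨fun n => Nat.rec 0 (fun _ x => x + nx (y - ι x)) n, rfl, fun _ => rfl⟩
    have hle : ∀ n : ℕ, v' (y - ι (z n)) ≤ exp (-1 : ℤ) ^ (n + 1) := by
      intro n
      induction n with
      | zero =>
        rw [z0, map_zero, sub_zero, zero_add, pow_one]
        exact hy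
      | succ n ih =>
        rw [zs, map_add, ← sub_sub, pow_succ]
        exact (hnx2 _).trans (mul_le_mul' ih le_rfl)
    obtain ⟨x, hx⟩ := cau z a (by
      rw [ha, ← exp_zero, exp_lt_exp]
      norm_num) (by
      intro n
      rw [zs, add_sub_cancel_left, ha]
      exact (hnx1 _).trans (hle n))
    refine ⟨x, ?_⟩
    by_contra hne
    have ht : y - ι x ≠ 0 := fun h0 => hne (sub_eq_zero.1 h0).symm
    have ht0 : v' (y - ι x) ≠ 0 := (Valuation.ne_zero_iff _).2 ht
    obtain ⟨m, hm⟩ : ∃ m : ℕ, exp (-(m : ℤ)) < v' (y - ι x) := by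
      refine ⟨(log (v' (y - ι x))).natAbs + 1, ?_⟩
      rw [← exp_log ht0, exp_lt_exp]
      simp only [log_exp]
      push_cast
      have := neg_abs_le (log (v' (y - ι x)))
      omega
    have h1 := hx (a ^ m) (pow_ne_zero m ha0)
    obtain ⟨n, hn1, hn2⟩ := (h1.and (eventually_ge_atTop m)).exists
    have e : y - ι x = (y - ι (z n)) + ι (z n - x) := by
      rw [map_sub]
      ring
    have h2 : v' (ι (z n - x)) < v' (y - ι x) := by
      rw [hv]
      refine hn1.trans ?_
      rw [map_pow, ha, ← exp_nsmul]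
      have e2 : (m • (-1 : ℤ)) = -(m : ℤ) := by simp
      rw [e2]
      exact hm
    have h3 : v' (y - ι (z n)) < v' (y - ι x) := by
      refine lt_of_le_of_lt (hle n) (lt_of_le_of_lt ?_ hm)
      rw [← exp_nsmul, exp_le_exp]
      simp
      omega
    have h4 : v' (y - ι x) < v' (y - ι x) := by
      conv_lhs => rw [e]
      exact lt_of_le_of_lt (Valuation.map_add _ _ _) (max_lt h3 h2)
    exact lt_irrefl _ h4
  intro y
  by_cases hy : y = 0
  · exact ⟨0, by rw [map_zero, hy]⟩
  have hy0 : v' y ≠ 0 := (Valuation.ne_zero_iff _).2 hy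
  obtain ⟨m, hm⟩ : ∃ m : ℕ, v' (y * ι a ^ m) ≤ exp (-1 : ℤ) := by
    refine ⟨(log (v' y)).natAbs + 1, ?_⟩
    rw [map_mul, map_pow, hv, ha, ← exp_nsmul, ← exp_log hy0, ← exp_add, exp_le_exp]
    simp only [log_exp]
    have := le_abs_self (log (v' y))
    simp
    omega
  obtain ⟨x, hx⟩ := hsmall _ hm
  refine ⟨x / a ^ m, ?_⟩
  have hia : ι a ≠ 0 := by
    rw [Ne, map_eq_zero]
    exact ha0
  rw [map_div₀, map_pow, hx]
  field_simp

section main

variable {F K : Type} [Field F] [NumberField F] [Field K] [NumberField K] [Algebra F K]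
  {w : HeightOneSpectrum (𝓞 F)} {w' : HeightOneSpectrum (𝓞 K)}

/-- **The completions coincide** if `w'` is unramified of degree one over `w`. -/
theorem exists_inv (ho : Over w w') (hv : ∀ x : F, w'.valuation K (algebraMap F K x) = w.valuation F x)
    (hc : Nat.card (𝓞 K ⧸ w'.asIdeal) = Nat.card (𝓞 F ⧸ w.asIdeal)) :
    ∃ κ : w'.adicCompletion K →+* w.adicCompletion F, ∀ x : F,
      κ (algebraMap K (w'.adicCompletion K) (algebraMap F K x)) =
        algebraMap F (w.adicCompletion F) x := by
  obtain ⟨j, hj1, hj2, hj3⟩ := Pool.Agent.N814.JM.cpl F K (𝓞 F) (𝓞 K) w w' ho.lies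
  have hvj := val_j hv j hj1 hj3
  obtain ⟨π, hπ⟩ := w.valuation_exists_uniformizer F
  have hd : ∀ t : w'.adicCompletion K, t ≠ 0 → ∃ s : w.adicCompletion F,
      Valued.v (R := w'.adicCompletion K) (t - j s) < Valued.v (R := w'.adicCompletion K) t := by
    intro t ht
    have ht0 : Valued.v (R := w'.adicCompletion K) t ≠ 0 := (Valuation.ne_zero_iff _).2 ht
    obtain ⟨x, hx⟩ := near w' t ht0
    have hxt : Valued.v (R := w'.adicCompletion K) (algebraMap K (w'.adicCompletion K) x) =
        Valued.v (R := w'.adicCompletion K) t := by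
      have e : algebraMap K (w'.adicCompletion K) x =
          t - (t - algebraMap K (w'.adicCompletion K) x) := by ring
      rw [e]
      exact Valuation.map_sub_eq_of_lt_left _ hx
    have hx0 : x ≠ 0 := by
      rintro rfl
      rw [map_zero, map_zero] at hxt
      exact ht0 hxt.symm
    obtain ⟨s, hs⟩ := dens hv ho hc x hx0
    refine ⟨algebraMap F (w.adicCompletion F) s, ?_⟩
    rw [hj1]
    have e : t - algebraMap K (w'.adicCompletion K) (algebraMap F K s) =
        (t - algebraMap K (w'.adicCompletion K) x) +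
        algebraMap K (w'.adicCompletion K) (x - algebraMap F K s) := by
      rw [map_sub]
      ring
    rw [e]
    refine lt_of_le_of_lt (Valuation.map_add _ _ _) (max_lt hx ?_)
    rw [vx, ← hxt, vx]
    exact hs
  have hsurj := surj_of_dense (v' := Valued.v (R := w'.adicCompletion K)) hvj
    (a := algebraMap F (w.adicCompletion F) π) (by rw [vx]; exact hπ) hd
  let e : w.adicCompletion F ≃+* w'.adicCompletion K :=
    RingEquiv.ofBijective j ⟨j.injective, hsurj⟩
  refine ⟨e.symm.toRingHom, fun x => ?_⟩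
  change e.symm _ = _
  rw [RingEquiv.symm_apply_eq]
  exact (hj1 x).symm

theorem dsc_split (ho : Over w w')
    (hv : ∀ x : F, w'.valuation K (algebraMap F K x) = w.valuation F x)
    (hc : Nat.card (𝓞 K ⧸ w'.asIdeal) = Nat.card (𝓞 F ⧸ w.asIdeal)) {f h : F[X]}
    (H : LocIm (w'.adicCompletion K) ((f.map (algebraMap F K)).map (algebraMap K (w'.adicCompletion K)))
      ((h.map (algebraMap F K)).map (algebraMap K (w'.adicCompletion K)))) :
    LocF (w.adicCompletion F) f h := by
  obtain ⟨κ, hκ⟩ := exists_inv ho hv hc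
  have key := LocIm.map' κ H
  have hcomp : (κ.comp (algebraMap K (w'.adicCompletion K))).comp (algebraMap F K) =
      algebraMap F (w.adicCompletion F) := RingHom.ext hκ
  have hmap : ∀ p : F[X], ((p.map (algebraMap F K)).map (algebraMap K (w'.adicCompletion K))).map κ =
      p.map (algebraMap F (w.adicCompletion F)) := by
    intro p
    rw [Polynomial.map_map, Polynomial.map_map, hcomp]
  rw [hmap, hmap] at key
  exact key

end main

end Pool.Agent.V7H54.J
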