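import Pool.Agent.V7H54.J.Card
import Pool.Agent.V7H54.J.Real
import Pool.Agent.V7H54.J.Spl

/-!
# Local conditions over `K` for classes over `F`, general degree
-/

set_option autoImplicit false
set_option linter.all false

open Polynomial IsDedekindDomain NumberField
open scoped Classical

namespace Pool.Agent.V7H54.J

open Pool.Agent.V7H54
open Pool.Agent.N874.PP (Ev Sq1 U0)
open Pool.Agent.N874.PM (Lies)
open Pool.Agent.N874.JM (LocF)
open Pool.Agent.N783.PQ (LocIm)
open Pool.Agent.N783.PF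

/-- A prime of `K` over `w` with the same completion. -/
def Spl2 (F K : Type) [Field F] [NumberField F] [Field K] [NumberField K] [Algebra F K]
    (w : HeightOneSpectrum (𝓞 F)) : Prop :=
  ∃ w' : HeightOneSpectrum (𝓞 K), Over w w' ∧
    (∀ x : F, w'.valuation K (algebraMap F K x) = w.valuation F x) ∧
    Nat.card (𝓞 K ⧸ w'.asIdeal) = Nat.card (𝓞 F ⧸ w.asIdeal)

/-- Only one real root. -/
def One {F : Type} [Field F] [NumberField F] (σ : F →+* ℝ) (f : (𝓞 F)[X]) : Prop :=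
  ∀ x y : ℝ, eval x ((fF f).map σ) = 0 → eval y ((fF f).map σ) = 0 → x = y

section

variable {F K L Ω : Type} [Field F] [NumberField F] [Field K] [NumberField K] [Field L]
  [NumberField L] [Field Ω] [NumberField Ω] [Algebra F K] [Algebra F L] [Algebra K Ω]
  [Algebra L Ω] [Algebra F Ω] [IsScalarTower F K Ω] [IsScalarTower F L Ω]

/-- **Consequences of the local conditions over `K` for the twist by `Dp J`.** -/
theorem locG {g W : ℕ} (hg : 1 ≤ g) {f f₁ : (𝓞 F)[X]} {θ : L} {S J : Finset ℕ} {𝔮 : ℕ → Ideal (𝓞 F)}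
    {r P : ℕ → (𝓞 F)[X]} (hG : IsGen g f θ) (hGK : IsGen g (upo F K f) (algebraMap L Ω θ))
    (hirr : Irreducible ((fF f).map (algebraMap F K))) (hsq : SqF g f) (hF : GoodF g W f₁)
    (hS : GoodS g W S 𝔮 r P) (hc1 : Cg (sp F W) f f₁) (hcq : ∀ q ∈ S, Cg (sp F q) f (P q))
    (hJS : J ⊆ S)
    (hram : ∀ w : HeightOneSpectrum (𝓞 F), ¬ Unr F K w → Irreducible (rd w.asIdeal f))
    (hSK : ∀ q ∈ S, ∀ 𝔔 : Ideal (𝓞 K), 𝔔.IsPrime → (q : 𝓞 K) ∉ 𝔔 ^ 2 ∧
      ((q : 𝓞 K) ∈ 𝔔 → Nat.card (𝓞 K ⧸ 𝔔) = q))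
    (hdsc : ∀ w : HeightOneSpectrum (𝓞 F), (2 : 𝓞 F) ∈ w.asIdeal → Spl2 F K w)
    (hone : ∀ σ : F →+* ℝ, One σ f)
    (h : F[X]) (hne : aeval ((Dp J : L) * θ) h ≠ 0)
    (hN : IsSquare (Algebra.norm F (aeval ((Dp J : L) * θ) h)))
    (hloc : ∀ w' : HeightOneSpectrum (𝓞 K), LocIm (w'.adicCompletion K)
      (((fF (f.scaleRoots ((Dp J : ℕ) : 𝓞 F))).map (algebraMap F K)).map
        (algebraMap K (w'.adicCompletion K)))
      ((h.map (algebraMap F K)).map (algebraMap K (w'.adicCompletion K)))) :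
    (∀ 𝔓 : HeightOneSpectrum (𝓞 L), (∀ q ∈ J, Ov (𝔮 q) 𝔓 → 𝔓.valuation L θ ≠ 1) →
      Ev 𝔓 (aeval ((Dp J : L) * θ) h)) ∧
    (∀ q ∈ J, ∀ 𝔓 : HeightOneSpectrum (𝓞 L), Ov (𝔮 q) 𝔓 → 𝔓.valuation L θ = 1 →
      U0 𝔓 ((q : L) * θ) (aeval ((Dp J : L) * θ) h)) ∧
    (∀ w : HeightOneSpectrum (𝓞 F), (2 : 𝓞 F) ∈ w.asIdeal →
      LocF (w.adicCompletion F) (fF f) (h.comp (C ((Dp J : ℕ) : F) * X))) ∧
    ∀ σ : F →+* ℝ, LocIm ℝ ((fF f).map σ) ((h.comp (C ((Dp J : ℕ) : F) * X)).map σ) := by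
  have hqp : ∀ q ∈ S, q.Prime := fun q hq => (hS q hq).1
  have h3K : Module.finrank K Ω = 2 * g + 1 := hGK.rank
  -- congruences modulo `𝔮 q`
  have hcQ : ∀ q ∈ S, Cg (𝔮 q) f (X * r q) := by
    intro q hq j
    obtain ⟨-, -, -, -, -, -, a2, -, -, -, -, -, -, a3, -⟩ := hS q hq
    have b1 := Pool.Agent.N78.PF.sp_le (F := F) a2 (hcq q hq j)
    have b2 := a3 j
    have := Ideal.add_mem _ b1 b2
    simpa using this
  have hqne : ∀ q ∈ S, 𝔮 q ≠ ⊥ := by
    intro q hq h0
    obtain ⟨a1, -, -, -, -, -, a2, -⟩ := hS q hq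
    rw [h0, Ideal.mem_bot] at a2
    exact a1.ne_zero (by exact_mod_cast a2)
  have hqpr : ∀ q ∈ S, (𝔮 q).IsPrime := by
    intro q hq
    obtain ⟨-, -, -, -, -, a1, -⟩ := hS q hq
    exact a1
  obtain ⟨D, hD⟩ : ∃ D : ℕ, D = Dp J := ⟨_, rfl⟩
  rw [← hD] at hne hN hloc ⊢
  have hD0 : D ≠ 0 := by
    rw [hD, Dp, Finset.prod_ne_zero_iff]
    exact fun q hq => (hqp q (hJS hq)).ne_zero
  have hD8 : D % 8 = 1 := by
    rw [hD]
    have : ∀ T : Finset ℕ, T ⊆ S → (∏ q ∈ T, q) % 8 = 1 := by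
      intro T
      induction T using Finset.induction_on with
      | empty => intro _; rfl
      | insert a T ha ih =>
        intro hT
        rw [Finset.prod_insert ha, Nat.mul_mod, ih fun x hx => hT (Finset.mem_insert_of_mem hx),
          (hS a (hT (Finset.mem_insert_self _ _))).2.2.2.1]
    exact this J hJS
  have hcomp : aeval θ (h.comp (C (D : F) * X)) = aeval ((D : L) * θ) h := by
    rw [aeval_comp, map_mul, aeval_C, aeval_X, map_natCast]
  have hover : ∀ {w : HeightOneSpectrum (𝓞 F)} {𝔓 : HeightOneSpectrum (𝓞 L)},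
      Ov w.asIdeal 𝔓 → Over w 𝔓 := by
    intro w 𝔓 ho
    obtain ⟨w₁, hw₁⟩ := exists_over (F := F) 𝔓
    have : w = w₁ := by
      ext1
      exact Pool.Agent.N78.PF.eq_of_ov w.isPrime w.ne_bot ho hw₁
    rw [this]
    exact hw₁
  refine ⟨?_, ?_, ?_, ?_⟩
  · -- even valuations
    intro 𝔓 h𝔓
    obtain ⟨w, w1, w2, w3⟩ := Pool.Agent.N459.PF.lie F L 𝔓
    have w2' : Over w 𝔓 := w2
    by_cases c2 : (2 : 𝓞 F) ∈ w.asIdeal
    · -- primes over two
      have hW : (W : 𝓞 F) ∈ w.asIdeal := by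
        obtain ⟨k, hk⟩ := hF.two
        rw [hk]
        push_cast
        exact Ideal.mul_mem_right _ _ c2
      have e1 := Pool.Agent.N78.PF.rd_eq (Pool.Agent.N78.PF.sp_le hW) hc1
      exact Pool.Agent.N426.PF.pin int g F L f θ hG hsq w.asIdeal w.isPrime w.ne_bot
        (by rw [e1]; exact hF.irr _ w.isPrime c2) _ hne hN 𝔓 w1
    · by_cases cq : ∃ q ∈ J, (q : 𝓞 F) ∈ w.asIdeal
      · obtain ⟨q, hq, hqw⟩ := cq
        have hqS := hJS hq
        by_cases cw : w.asIdeal = 𝔮 q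
        · have o1 : Ov (𝔮 q) 𝔓 := by
            rw [← cw]
            exact w1
          have v1 : 𝔓.valuation L θ < 1 :=
            lt_of_le_of_ne (Pool.Agent.N78.PF.val_theta hG 𝔓) (h𝔓 q hq o1)
          exact Pool.Agent.N426.PF.parq int exq g W F L f θ S 𝔮 r P hg hG hsq hS q hqS
            (hcQ q hqS) _ hne hN 𝔓 o1 v1
        · have e1 := Pool.Agent.N78.PF.rd_eq (Pool.Agent.N78.PF.sp_le hqw) (hcq q hqS)
          obtain ⟨-, -, -, -, -, -, -, -, -, -, -, -, -, -, a1⟩ := hS q hqS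
          exact Pool.Agent.N426.PF.pin int g F L f θ hG hsq w.asIdeal w.isPrime w.ne_bot
            (by rw [e1]; exact a1 _ w.isPrime hqw cw) _ hne hN 𝔓 w1
      · -- primes not dividing `2 D`
        have hDw : (D : 𝓞 F) ∉ w.asIdeal := by
          intro hd
          rw [hD, Dp, Nat.cast_prod] at hd
          haveI := w.isPrime
          obtain ⟨q, hq, hqw⟩ := (Ideal.IsPrime.prod_mem_iff).1 hd
          exact cq ⟨q, hq, hqw⟩
        by_cases cr : Unr F K w
        · by_cases cu : 𝔓.valuation L (aeval θ (derivative (fF f))) = 1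
          · exact ev_unitK hGK hirr cr w2' hG.mon cu c2 hDw h hloc hne
          · have v1 : 𝔓.valuation L (aeval θ (derivative (fF f))) < 1 :=
              lt_of_le_of_ne (Pool.Agent.N78.PF.val_der hG 𝔓) cu
            obtain ⟨⟨c, hc⟩, hother⟩ := Pool.Agent.N459.PF.ram int g F L f θ hG hsq w.asIdeal
              w.isPrime w.ne_bot 𝔓 w1 v1
            refine Pool.Agent.N426.PF.par int g F L f θ hG hsq w.asIdeal w.isPrime w.ne_bot 𝔓 c w1
              hc _ hne hN ?_
            intro 𝔓' o' n'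
            exact ev_unitK hGK hirr cr (hover o') hG.mon (hother 𝔓' o' n') c2 hDw h hloc hne
        · exact Pool.Agent.N426.PF.pin int g F L f θ hG hsq w.asIdeal w.isPrime w.ne_bot
            (hram w cr) _ hne hN 𝔓 w1
  · -- the primes in `J`
    intro q hq 𝔓 o1 v1
    have hqS := hJS hq
    obtain ⟨w, w1, w2, w3⟩ := Pool.Agent.N459.PF.lie F L 𝔓
    have hO : Over w 𝔓 := w2
    have ew : 𝔮 q = w.asIdeal :=
      Pool.Agent.N78.PF.eq_of_ov (hqpr q hqS) (hqne q hqS) o1 w2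
    obtain ⟨a1, a2, a3, a4, a5, a6, a7, a8, a9, a10, a11, a12, a13, a14, a15⟩ := hS q hqS
    obtain ⟨𝔓', h4⟩ := exists_above (K := Ω) 𝔓
    obtain ⟨w', h3⟩ := exists_over (F := K) 𝔓'
    have h1 : Over w w' := over_mid (over_trans hO h4) h3
    haveI : Finite (𝓞 K ⧸ w'.asIdeal) := Ideal.finiteQuotientOfFreeOfNeBot _ w'.ne_bot
    haveI : Finite (𝓞 Ω ⧸ 𝔓'.asIdeal) := Ideal.finiteQuotientOfFreeOfNeBot _ 𝔓'.ne_bot
    have hqw : (q : 𝓞 F) ∈ w.asIdeal := by rw [← ew]; exact a7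
    have hqw' : (q : 𝓞 K) ∈ w'.asIdeal := by
      have := (h1 (q : 𝓞 F)).1 hqw
      rwa [map_natCast] at this
    have hcK : Nat.card (𝓞 K ⧸ w'.asIdeal) = q := (hSK q hqS _ w'.isPrime).2 hqw'
    have hcF : Nat.card (𝓞 F ⧸ w.asIdeal) = q := card_res h1 a1 hcK
    have hu : Unr F K w := by
      intro 𝔔 h𝔔 hle
      apply (hSK q hqS 𝔔 h𝔔).1
      have := hle (Ideal.mem_map_of_mem _ hqw)
      rwa [map_natCast] at this
    obtain ⟨c1, ⟨m, c2⟩, c3, -⟩ := csq g W F L f θ S 𝔮 r P hg hG hsq hS q hqS (hcQ q hqS) 𝔓 o1 v1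
    obtain ⟨u1, u2⟩ := val_up hGK hirr hu h1 hO h3 h4 c3
    have c2' := card_big hg hG hsq (hqpr q hqS) (hqne q hqS) a8 a9 a10 (hcQ q hqS) o1 v1
    rw [ew, hcF] at c2'
    have hcard := card_eqG h3 h4 hg h3K a1.one_lt hcK c2'
    have hdens := dens u2 h4 hcard
    have h2w : (2 : 𝓞 K) ∉ w'.asIdeal := by
      intro hm
      have h9 : ((q : 𝓞 K)) - 2 * ((q / 2 : ℕ) : 𝓞 K) = 1 := by
        have h10 : q = 2 * (q / 2) + 1 := by omega
        have h11 : (q : 𝓞 K) = 2 * ((q / 2 : ℕ) : 𝓞 K) + 1 := by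
          exact_mod_cast congrArg (Nat.cast (R := 𝓞 K)) h10
        rw [h11]
        ring
      apply w'.isPrime.ne_top
      rw [Ideal.eq_top_iff_one, ← h9]
      exact Ideal.sub_mem _ hqw' (Ideal.mul_mem_right _ _ hm)
    have nat_mem : ∀ p : ℕ, p.Prime → (p : 𝓞 K) ∈ w'.asIdeal → p = q := by
      intro p hp hpm
      by_contra hpq
      have hco : Nat.Coprime p q := (Nat.coprime_primes hp a1).2 hpq
      obtain ⟨u, v, huv⟩ := (Nat.isCoprime_iff_coprime.2 hco)
      apply w'.isPrime.ne_top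
      rw [Ideal.eq_top_iff_one]
      have h9 : (1 : 𝓞 K) = (u : 𝓞 K) * (p : 𝓞 K) + (v : 𝓞 K) * (q : 𝓞 K) := by
        have := congrArg (Int.cast (R := 𝓞 K)) huv
        push_cast at this
        exact this.symm
      rw [h9]
      exact Ideal.add_mem _ (Ideal.mul_mem_left _ _ hpm) (Ideal.mul_mem_left _ _ hqw')
    obtain ⟨D', hD'⟩ : ∃ D' : ℕ, D' = ∏ p ∈ J.erase q, p := ⟨_, rfl⟩
    have hDD : D = q * D' := by
      rw [hD, hD']
      exact (Finset.mul_prod_erase J (fun P => P) hq).symm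
    have hD'm : (D' : 𝓞 K) ∉ w'.asIdeal := by
      intro hd
      rw [hD', Nat.cast_prod] at hd
      haveI := w'.isPrime
      obtain ⟨p, hp, hpm⟩ := (Ideal.IsPrime.prod_mem_iff).1 hd
      have hp' := Finset.mem_erase.1 hp
      exact hp'.1 (nat_mem p (hqp p (hJS hp'.2)) hpm)
    have hD'F : (D' : 𝓞 F) ∉ 𝔮 q := by
      intro hd
      rw [ew, h1, map_natCast] at hd
      exact hD'm hd
    have v2 : w'.valuation K 2 = 1 := by
      have := Pool.Agent.N78.PF.val_one h2w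
      rwa [Pool.Agent.N78.PF.two_cast] at this
    have vD' : w'.valuation K (D' : K) = 1 := by
      have := Pool.Agent.N78.PF.val_one hD'm
      simpa using this
    obtain ⟨𝔓₁, 𝔓₂, e1, e2, e3, e4, e5, e6, e7⟩ :=
      exq g W F L f θ S 𝔮 r P hg hG hsq hS q hqS (hcQ q hqS)
    have vq : 𝔓'.valuation Ω (algebraMap K Ω (q : K)) = WithZero.exp (-1 : ℤ) := by
      rw [map_natCast, ← map_natCast (algebraMap L Ω) q, u2]
      rcases e7 𝔓 o1 with rfl | rfl
      · exact e5
      · exact e6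
    have s1 : Sq1 𝔓' (-1 : Ω) := by
      have h5 : Sq1 𝔓 (-1 : L) := by
        have := c1 (-1) (by
          intro hm
          apply a6.ne_top
          rw [Ideal.eq_top_iff_one]
          have := Ideal.neg_mem_iff _ |>.2 hm
          simpa using this)
        simpa using this
      have := sq_up u2 h5
      simpa using this
    have s2 : Sq1 𝔓' (algebraMap K Ω (D' : K)) := by
      have h5 : Sq1 𝔓 ((D' : ℕ) : L) := by
        have := c1 (D' : 𝓞 F) hD'F
        simpa using this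
      have := sq_up u2 h5
      simpa using this
    have hl := hloc w'
    have e0 : (fF (f.scaleRoots ((D : ℕ) : 𝓞 F))).map (algebraMap F K) =
        (fF (upo F K f)).scaleRoots ((q : K) * (D' : K)) := by
      rw [Pool.Agent.N78.PF.fF_scale hG.mon, fF_upo, map_scaleRoots, hDD]
      · simp
      · rw [(hG.mon.map _).leadingCoeff, map_one]
        exact one_ne_zero
    rw [e0] at hl
    have hmK : (upo F K f).Monic := hG.mon.map _
    have hae : aeval (algebraMap K Ω ((q : K) * (D' : K)) * algebraMap L Ω θ)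
        (h.map (algebraMap F K)) = algebraMap L Ω (aeval ((D : L) * θ) h) := by
      rw [aeval_map_algebraMap, ← aeval_algebraMap_apply, map_mul, map_natCast, hDD]
      simp
    have key := Pool.Agent.N78.PF.LOC2 K Ω (𝓞 K) (𝓞 Ω) w' 𝔓' h3.lies v2 g (fF (upo F K f))
      (h.map (algebraMap F K)) (upo F K (r q)) (q : K) (D' : K) (algebraMap L Ω θ) hg (hmK.map _)
      (by rw [hmK.natDegree_map, hG.mon.natDegree_map, hG.deg]) (a8.map _)
      (by rw [a8.natDegree_map, a9])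
      (irr_res h1 (by rw [hcK, hcF]) (ew ▸ a10)) (by
        intro j
        rw [coeff_map, ← map_sub]
        refine (HeightOneSpectrum.valuation_lt_one_iff_mem (K := K) w' _).2 ?_
        have h5 : upo F K (X * r q) = X * upo F K (r q) := by
          rw [upo, upo, Polynomial.map_mul, map_X]
        rw [← h5, upo, upo, coeff_map, coeff_map, ← map_sub, ← h1, ← ew]
        exact hcQ q hqS j) hGK.root (by rw [u2]; exact v1) vq vD' s1 s2 hl (by
        rw [hae, Ne, map_eq_zero]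
        exact hne)
    rw [hae] at key
    have e8 : algebraMap K Ω (q : K) * algebraMap L Ω θ = algebraMap L Ω ((q : L) * θ) := by
      rw [map_mul, map_natCast, map_natCast]
    rw [e8] at key
    exact u0_down u2 hdens key
  · -- the primes over two
    intro w hw
    obtain ⟨w', hww', hv2, hc2⟩ := hdsc w hw
    haveI : Fact (Nat.Prime 2) := ⟨Nat.prime_two⟩
    obtain ⟨δ, hδ⟩ := Pool.Agent.N891.PQ.sq_two D hD8
    obtain ⟨ι, hι, -, -⟩ := Pool.Agent.N498.PQ.cpl K 2 w' (by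
      change ((2 : ℕ) : 𝓞 K) ∈ w'.asIdeal
      have := (hww' (2 : 𝓞 F)).1 hw
      rw [map_ofNat] at this
      exact_mod_cast this)
    haveI : CharZero (w'.adicCompletion K) :=
      charZero_of_injective_algebraMap (algebraMap K (w'.adicCompletion K)).injective
    have hmK : (upo F K f).Monic := hG.mon.map _
    have e0 : fF ((upo F K f).scaleRoots ((D : ℕ) : 𝓞 K)) =
        (fF (f.scaleRoots ((D : ℕ) : 𝓞 F))).map (algebraMap F K) := by
      rw [← fF_upo, upo, upo, map_scaleRoots]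
      · simp
      · rw [hG.mon.leadingCoeff, map_one]
        exact one_ne_zero
    have key := Pool.Agent.N78.PF.map_locF (E := w'.adicCompletion K) (g := g) hmK
      (by rw [hG.mon.natDegree_map, hG.deg]) hD0 (ι δ) (by rw [← map_pow, hδ, map_natCast])
      (h.map (algebraMap F K)) (by
        rw [e0]
        exact hloc w')
    rw [fF_upo] at key
    have e9 : (h.map (algebraMap F K)).comp (C ((D : ℕ) : K) * X) =
        (h.comp (C ((D : ℕ) : F) * X)).map (algebraMap F K) := by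
      rw [Polynomial.map_comp]
      simp
    rw [e9] at key
    exact dsc_split hww' hv2 hc2 key
  · -- the real places
    intro σ
    have hmf : (fF f).Monic := hG.mon.map _
    have hirrF : Irreducible (fF f) :=
      Polynomial.Monic.irreducible_of_irreducible_map (algebraMap F K) _ hmf hirr
    have hcop : IsCoprime (fF f) (h.comp (C ((D : ℕ) : F) * X)) := by
      refine (hirrF.coprime_iff_not_dvd).2 fun hdv => ?_
      obtain ⟨q, hq⟩ := hdv
      apply hne
      rw [← hcomp, hq, map_mul, hG.root, zero_mul]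
    obtain ⟨s, hs⟩ := real_sqG hmf (by rw [hG.mon.natDegree_map, hG.deg]) ⟨g, rfl⟩ hG.basis
      (fun i => hG.basis_apply i) hG.root hirrF.separable σ (hone σ)
      (h.comp (C ((D : ℕ) : F) * X)) hcop (by rw [hcomp]; exact hN)
    exact LocIm.congr' hs (LocIm.sq' (f := (fF f).map σ) s)

end

end Pool.Agent.V7H54.J
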