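import Pool.Agent.V7H54.J.Mono
import Pool.Agent.N645.PF.BX
import Pool.Agent.N364.PF.Cl

/-!
# The size of the box of polynomials with one real root
-/

set_option autoImplicit false
set_option linter.all false

open Polynomial NumberField IsDedekindDomain
open scoped Classical

namespace Pool.Agent.V7H54.J

open Pool.Agent.V7H54
open Pool.Agent.N951.PF
open Pool.Agent.N352.PJ (dd pol dis Dy D2)
open Pool.Agent.N352.PF (dg Bal nv rv Bz Bx bxT)
open Pool.Agent.N783.PF (Bd Cg sp rd Ht GoodS GoodF Fam fF)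
open Pool.Agent.N645.PF (ncard_pi prod_pow)

variable (F : Type) [Field F] [NumberField F]

/-- The box with the condition at the real places. -/
def BpG (g B W : ℕ) (A : Fin (2 * g) → 𝓞 F) : Set (Fin (2 * g) → 𝓞 F) :=
  {a | a ∈ Bx g B W A ∧ ∀ σ : F →+* ℝ, One σ (pol a)}

/-- The centre of the side `j`. -/
def cj (g B j : ℕ) : ℕ := if j = 1 then 2 * (B ^ (2 * g) / 8) else 0

/-- The radius of the side `j`. -/
def rj (g B j : ℕ) : ℕ := if j = 1 then B ^ (2 * g) / 8 else if j = 0 then B ^ (2 * g + 1) else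
  B ^ (2 * g + 1 - j) / (16 * (2 * g) ^ 2)

/-- The side `j`. -/
def sj (g B W : ℕ) (A : Fin (2 * g) → 𝓞 F) (j : Fin (2 * g)) : Set (𝓞 F) :=
  {x | x - (cj g B j : 𝓞 F) ∈ Bal F (rj g B j) ∧ (W : 𝓞 F) ∣ x - A j}

theorem cr_le {g B : ℕ} (hg : 1 ≤ g) (j : Fin (2 * g)) :
    cj g B j + rj g B j ≤ B ^ (2 * g + 1 - (j : ℕ)) := by
  unfold cj rj
  by_cases h1 : (j : ℕ) = 1
  · rw [if_pos h1, if_pos h1, h1]
    have e : 2 * g + 1 - 1 = 2 * g := by omega
    rw [e]
    omega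
  · rw [if_neg h1, if_neg h1]
    by_cases h0 : (j : ℕ) = 0
    · rw [if_pos h0, h0]
      simp
    · rw [if_neg h0, zero_add]
      exact Nat.div_le_self _ _

theorem le_rj {g B : ℕ} (hg : 1 ≤ g) (hB : 16 * (2 * g) ^ 2 ≤ B) (j : Fin (2 * g)) :
    B ^ (2 * g + 1 - (j : ℕ)) ≤ 2 * (16 * (2 * g) ^ 2) * rj g B j := by
  have hj := j.2
  have hM : 64 ≤ 16 * (2 * g) ^ 2 := by nlinarith
  have hB1 : 1 ≤ B := by omega
  unfold rj
  by_cases h1 : (j : ℕ) = 1
  · rw [if_pos h1, h1]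
    have e : 2 * g + 1 - 1 = 2 * g := by omega
    rw [e]
    have h2 : B ≤ B ^ (2 * g) := Nat.le_self_pow (by omega) B
    have h3 : B ^ (2 * g) ≤ 16 * (B ^ (2 * g) / 8) := by omega
    refine h3.trans (Nat.mul_le_mul_right _ (by omega))
  · rw [if_neg h1]
    by_cases h0 : (j : ℕ) = 0
    · rw [if_pos h0, h0]
      simp only [Nat.sub_zero]
      exact Nat.le_mul_of_pos_left _ (by omega)
    · rw [if_neg h0]
      have h2 : B ≤ B ^ (2 * g + 1 - (j : ℕ)) := Nat.le_self_pow (by omega) B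
      generalize B ^ (2 * g + 1 - (j : ℕ)) = X at h2 ⊢
      generalize 16 * (2 * g) ^ 2 = M at hM hB ⊢
      have h3 : X < M * (X / M) + M := by
        have := Nat.lt_div_mul_add (a := X) (b := M) (by omega)
        rw [mul_comm M]
        exact this
      have h4 : 1 ≤ X / M := (Nat.one_le_div_iff (by omega)).2 (hB.trans h2)
      nlinarith

theorem one_of {g B : ℕ} (hg : 1 ≤ g) (hB : 16 * (2 * g) ^ 2 ≤ B) {a : Fin (2 * g) → 𝓞 F}
    (ha : ∀ j : Fin (2 * g), a j - (cj g B j : 𝓞 F) ∈ Bal F (rj g B j)) (σ : F →+* ℝ) :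
    One σ (pol a) := by
  have hM : 64 ≤ 16 * (2 * g) ^ 2 := by nlinarith
  have habs : ∀ j : Fin (2 * g), |σ ((a j : 𝓞 F) : F) - (cj g B j : ℝ)| ≤ (rj g B j : ℝ) := by
    intro j
    have h1 := ha j ((algebraMap ℝ ℂ).comp σ)
    have h2 : (((a j - (cj g B j : 𝓞 F) : 𝓞 F)) : F) = (a j : F) - (cj g B j : F) := by
      push_cast
      rfl
    rw [h2, map_sub, map_natCast] at h1
    have h3 : ((algebraMap ℝ ℂ).comp σ) ((a j : 𝓞 F) : F) - ((cj g B j : ℕ) : ℂ) =
        ((σ ((a j : 𝓞 F) : F) - (cj g B j : ℝ) : ℝ) : ℂ) := by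
      push_cast
      rfl
    rw [h3, Complex.norm_real, Real.norm_eq_abs] at h1
    exact h1
  have hmap : (fF (pol a)).map σ = pol fun j => σ ((a j : 𝓞 F) : F) := by
    rw [fF, pol_map, pol_map]
  unfold One
  rw [hmap]
  have hB16 : (16 : ℝ) ≤ (B : ℝ) := by
    have : 16 ≤ B := by omega
    exact_mod_cast this
  refine one_real hg hB16 ?_ ?_
  · intro j hj
    have h1 := habs j
    unfold cj rj at h1
    rw [if_pos hj, if_pos hj] at h1
    have h2 := (abs_le.1 h1).1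
    have h3 : (B : ℝ) ^ (2 * g) / 8 - 1 ≤ ((B ^ (2 * g) / 8 : ℕ) : ℝ) := by
      have h4 : B ^ (2 * g) < 8 * (B ^ (2 * g) / 8) + 8 := by omega
      have h5 : (B : ℝ) ^ (2 * g) < 8 * ((B ^ (2 * g) / 8 : ℕ) : ℝ) + 8 := by exact_mod_cast h4
      linarith
    push_cast at h2 h3 ⊢
    linarith
  · intro j hj
    have h1 := habs j
    unfold cj rj at h1
    rw [if_neg (by omega), if_neg (by omega), if_neg (by omega), Nat.cast_zero, sub_zero] at h1
    refine h1.trans ?_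
    have h2 := Nat.cast_div_le (α := ℝ) (m := B ^ (2 * g + 1 - (j : ℕ))) (n := 16 * (2 * g) ^ 2)
    push_cast at h2
    exact h2

theorem bp_lowG (g : ℕ) (hg : 1 ≤ g) : ∃ C : ℕ, 1 ≤ C ∧ ∀ (B W : ℕ) (A : Fin (2 * g) → 𝓞 F),
    0 < W → C * W ≤ B → (BpG F g B W A).Finite ∧
    B ^ (dg F * dd g) ≤ C * (BpG F g B W A).ncard * W ^ (2 * g * dg F) := by
  obtain ⟨C₁, hC₁, k1⟩ := Pool.Agent.N364.PF.cl F
  obtain ⟨C₂, hC₂, k2⟩ := bxT F g
  obtain ⟨M, hM⟩ : ∃ M : ℕ, M = 2 * (16 * (2 * g) ^ 2) := ⟨_, rfl⟩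
  have hM1 : 128 ≤ M := by nlinarith
  refine ⟨(M ^ dg F * C₁) ^ (2 * g) + M * C₁ + C₂, by omega, ?_⟩
  intro B W A hW hB
  have hB2 : C₂ * W ≤ B := (Nat.mul_le_mul_right W (Nat.le_add_left _ _)).trans hB
  have hBC : M * C₁ * W ≤ B :=
    (Nat.mul_le_mul_right W ((Nat.le_add_left _ _).trans (Nat.le_add_right _ _))).trans hB
  have hBM : M ≤ B := by
    refine le_trans ?_ hBC
    rw [mul_assoc]
    exact Nat.le_mul_of_pos_right _ (Nat.mul_pos (by omega) hW)
  have hBM2 : 16 * (2 * g) ^ 2 ≤ B := by omega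
  obtain ⟨hfin, -, -⟩ := k2 B W A hW hB2
  have hfp : (BpG F g B W A).Finite := hfin.subset fun a ha => ha.1
  refine ⟨hfp, ?_⟩
  have hsub : {a : Fin (2 * g) → 𝓞 F | ∀ j, a j ∈ sj F g B W A j} ⊆ BpG F g B W A := by
    intro a ha
    refine ⟨⟨fun j σ => ?_, fun j => (ha j).2⟩, one_of F hg hBM2 fun j => (ha j).1⟩
    have h1 := (ha j).1 σ
    have h2 : σ ((a j : 𝓞 F) : F) = σ (((a j - (cj g B j : 𝓞 F) : 𝓞 F)) : F) + (cj g B j : ℂ) := by
      push_cast
      rw [map_sub, map_natCast]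
      ring
    rw [h2]
    calc _ ≤ ‖σ (((a j - (cj g B j : 𝓞 F) : 𝓞 F)) : F)‖ + ‖(cj g B j : ℂ)‖ := norm_add_le _ _
      _ ≤ (rj g B j : ℝ) + (cj g B j : ℝ) := by
        rw [Complex.norm_natCast]
        exact add_le_add h1 le_rfl
      _ ≤ ((B ^ (2 * g + 1 - (j : ℕ)) : ℕ) : ℝ) := by
        have := cr_le (B := B) hg j
        have h3 : rj g B j + cj g B j ≤ B ^ (2 * g + 1 - (j : ℕ)) := by omega
        exact_mod_cast h3
  -- the sides
  have hside : ∀ j : Fin (2 * g), (sj F g B W A j).Finite ∧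
      (rj g B j) ^ dg F ≤ C₁ * (sj F g B W A j).ncard * W ^ dg F := by
    intro j
    have e : sj F g B W A j = (fun y => y + (cj g B j : 𝓞 F)) ''
        {y ∈ Bal F (rj g B j) | (W : 𝓞 F) ∣ y - (A j - (cj g B j : 𝓞 F))} := by
      ext x
      constructor
      · rintro ⟨h1, h2⟩
        refine ⟨x - (cj g B j : 𝓞 F), ⟨h1, ?_⟩, by ring⟩
        have e2 : x - (cj g B j : 𝓞 F) - (A j - (cj g B j : 𝓞 F)) = x - A j := by ring
        rw [e2]
        exact h2
      · rintro ⟨y, ⟨h1, h2⟩, rfl⟩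
        refine ⟨?_, ?_⟩
        · change y + (cj g B j : 𝓞 F) - (cj g B j : 𝓞 F) ∈ _
          rw [add_sub_cancel_right]
          exact h1
        · change (W : 𝓞 F) ∣ y + (cj g B j : 𝓞 F) - A j
          have e2 : y + (cj g B j : 𝓞 F) - A j = y - (A j - (cj g B j : 𝓞 F)) := by ring
          rw [e2]
          exact h2
    have hle := le_rj hg hBM2 j
    rw [← hM] at hle
    have hB1 : B ≤ B ^ (2 * g + 1 - (j : ℕ)) := Nat.le_self_pow (by have := j.2; omega) B
    have hr : C₁ * W ≤ rj g B j := by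
      have h1 : M * (C₁ * W) ≤ M * rj g B j := by
        rw [← mul_assoc]
        exact hBC.trans (hB1.trans hle)
      exact Nat.le_of_mul_le_mul_left h1 (by omega)
    have h2 := k1 (rj g B j) W (A j - (cj g B j : 𝓞 F)) hW hr
    have hinj : Function.Injective fun y : 𝓞 F => y + (cj g B j : 𝓞 F) := add_left_injective _
    have h3 : (sj F g B W A j).ncard =
        {y ∈ Bal F (rj g B j) | (W : 𝓞 F) ∣ y - (A j - (cj g B j : 𝓞 F))}.ncard := by
      rw [e, Set.ncard_image_of_injective _ hinj]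
    refine ⟨?_, by rw [h3]; exact h2⟩
    apply Set.finite_of_ncard_ne_zero
    intro h0
    rw [← h3, h0] at h2
    have h4 : 0 < rj g B j := lt_of_lt_of_le (Nat.mul_pos (by omega) hW) hr
    have h5 : 0 < rj g B j ^ dg F := pow_pos h4 _
    simp at h2
    omega
  obtain ⟨p1, p2⟩ := ncard_pi (fun j => sj F g B W A j) fun j => (hside j).1
  have hcard : ∏ j, (sj F g B W A j).ncard ≤ (BpG F g B W A).ncard := by
    rw [← p2]
    exact Set.ncard_le_ncard hsub hfp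
  calc B ^ (dg F * dd g) = ∏ j : Fin (2 * g), (B ^ (2 * g + 1 - (j : ℕ))) ^ dg F := (prod_pow g B _).symm
    _ ≤ ∏ j : Fin (2 * g), ((M ^ dg F * C₁) * (sj F g B W A j).ncard * W ^ dg F) := by
        refine Finset.prod_le_prod' fun j _ => ?_
        have hle := le_rj hg hBM2 j
        rw [← hM] at hle
        calc (B ^ (2 * g + 1 - (j : ℕ))) ^ dg F ≤ (M * rj g B j) ^ dg F := Nat.pow_le_pow_left hle _
          _ = M ^ dg F * (rj g B j) ^ dg F := mul_pow _ _ _
          _ ≤ M ^ dg F * (C₁ * (sj F g B W A j).ncard * W ^ dg F) := Nat.mul_le_mul_left _ (hside j).2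
          _ = _ := by ring
    _ = (M ^ dg F * C₁) ^ (2 * g) * (∏ j, (sj F g B W A j).ncard) * W ^ (2 * g * dg F) := by
        rw [Finset.prod_mul_distrib, Finset.prod_mul_distrib, Finset.prod_const, Finset.prod_const,
          Finset.card_univ, Fintype.card_fin, ← pow_mul, mul_comm (dg F) (2 * g)]
    _ ≤ ((M ^ dg F * C₁) ^ (2 * g) + M * C₁ + C₂) * (BpG F g B W A).ncard * W ^ (2 * g * dg F) := by
        gcongr
        omega

end Pool.Agent.V7H54.J
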