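import Pool.Agent.V7H54.J.FamG
import Pool.Agent.V7H54.J.TwG
import Pool.Agent.V7H54.J.ExsG
import Pool.Agent.V7H54.MainK

/-!
# A positive proportion over `K`, general degree

After `N99/PF/Main.lean` (helper99) and `N61/PF/Fin1.lean` (helper61).
-/

set_option autoImplicit false
set_option linter.all false

open Polynomial NumberField IsDedekindDomain
open scoped Classical

namespace Pool.Agent.V7H54.J

open Pool.Agent.V7H54
open Pool.Agent.N783.PF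
open Pool.Agent.N352.PJ (dd)
open Pool.Agent.N99.PF (card_fib sum_ddM ht_card ht_scale scale_inj good_card)
open Pool.Agent.N874.QM (SelM)

/-- Primes of `F` which are ramified in `K` contain every multiple of all small primes. -/
theorem mem_of_ramG {F K : Type} [Field F] [NumberField F] [Field K] [NumberField K] [Algebra F K]
    {g N W : ℕ} {f₁ : (𝓞 F)[X]} (h : GFG g N W f₁) (hN : (discr K).natAbs ≤ N)
    {w : HeightOneSpectrum (𝓞 F)} (hw : ¬ Unr F K w) : (W : 𝓞 F) ∈ w.asIdeal := by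
  unfold Unr at hw
  push Not at hw
  obtain ⟨𝔔, h𝔔, hle⟩ := hw
  have hnv : 2 ≤ Ideal.absNorm w.asIdeal := (Pool.Agent.N195.PF.pf F).2.2 w
  obtain ⟨p, hp, -, hpm⟩ := Pool.Agent.N951.PF.prime_factor w.asIdeal w.isPrime
    (Ideal.absNorm w.asIdeal) (by omega) (Ideal.absNorm_mem w.asIdeal)
  have h1 : (p : 𝓞 K) ∈ 𝔔 ^ 2 := by
    have := hle (Ideal.mem_map_of_mem _ hpm)
    rwa [map_natCast] at this
  have h2 : p ≤ (discr K).natAbs := by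
    by_contra hcon
    exact Pool.Agent.N710.PF.not_mem_sq hp (not_le.1 hcon) h𝔔 h1
  obtain ⟨m, hm⟩ := h.all p hp (h2.trans hN)
  rw [hm, Nat.cast_mul]
  exact Ideal.mul_mem_right _ _ hpm

/-- **A positive proportion of all polynomials.** -/
theorem mainG (g : ℕ) (hg : 1 ≤ g) (F K : Type) [Field F] [NumberField F] [Field K] [NumberField K] [Algebra F K]
    [IsGalois F K] (n : ℕ) (hn : Module.finrank F K = 2 ^ n) (hH : ∀ w : HeightOneSpectrum (𝓞 F), (2 : 𝓞 F) ∈ w.asIdeal → Spl2 F K w) :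
    ∃ c : ℝ, 0 < c ∧ ∃ B₀ : ℕ, ∀ B ≥ B₀,
    {f : (𝓞 F)[X] | Ht g B f}.Finite ∧ c * ({f : (𝓞 F)[X] | Ht g B f}.ncard : ℝ) ≤
      ({f : (𝓞 F)[X] | Ht g B f ∧ Irreducible (fF f) ∧ SelM K ((fF f).map (algebraMap F K)) ∧
        Min g f}.ncard : ℝ) := by
  obtain ⟨κ, htw⟩ := twG g hg F
  obtain ⟨C, K₁, hbad⟩ := bad F g κ hg
  obtain ⟨W, f₁, hKW', hGF, c, hc, hfam⟩ := famG g hg F (max (max K₁ κ) (discr K).natAbs)
  have hf₁ : GoodF g W f₁ := hGF.good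
  have hKW : max K₁ κ ≤ W := (le_max_left _ _).trans hKW'
  obtain ⟨-, Cp, hCp, -, hpt⟩ := Pool.Agent.N490.PF.pts F
  set D : ℕ := Module.finrank ℚ F * dd g with hD
  obtain ⟨m, hm⟩ : ∃ m : ℕ, 2 * (C * (4 * 2 ^ κ : ℝ) ^ D) / c < 2 ^ m :=
    pow_unbounded_of_one_lt _ (by norm_num)
  obtain ⟨S, 𝔮, h, P, hS, hcard, hspl⟩ := exsG g hg F K W m
  obtain ⟨B₁₀, hB₁₀⟩ := hfam S 𝔮 h P hS
  obtain ⟨N₀, hN₀⟩ := hbad W S 𝔮 h P ((le_max_left _ _).trans hKW) hS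
  set Q : ℕ := ∏ q ∈ S, q with hQ
  have hq1 : ∀ q ∈ S, 1 ≤ q := fun q hq => (hS q hq).1.pos
  have hQ1 : 1 ≤ Q := Finset.one_le_prod' hq1
  set Pn : ℕ := (∏ q ∈ S, q ^ (2 * g)) ^ Module.finrank ℚ F with hPn
  have hP0 : (0 : ℝ) < Pn := by
    have : 0 < Pn := pow_pos (Finset.prod_pos fun q hq => pow_pos (hq1 q hq) _) _
    exact_mod_cast this
  have hQ0 : (0 : ℝ) < Q := by exact_mod_cast hQ1
  set X₀ : ℕ := max (max B₁₀ (4 ^ N₀)) 1 with hX₀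
  refine ⟨c / 2 / (Pn * 2 ^ m * ((2 * Cp) ^ (2 * g) * (2 * Q) ^ D)), by positivity, X₀ * Q,
    fun B hB => ?_⟩
  set B₁ : ℕ := B / Q with hB₁
  have hBX : X₀ ≤ B₁ := (Nat.le_div_iff_mul_le hQ1).2 hB
  have hb1 : 1 ≤ B₁ := (le_max_right _ _).trans hBX
  have hb2 : B₁₀ ≤ B₁ := ((le_max_left _ _).trans (le_max_left _ _)).trans hBX
  have hb3 : 4 ^ N₀ ≤ B₁ := ((le_max_right _ _).trans (le_max_left _ _)).trans hBX
  have hBQ : B₁ * Q ≤ B := Nat.div_mul_le_self B Q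
  have hBQ2 : B ≤ 2 * Q * B₁ := by
    have e1 : B < B₁ * Q + Q := by
      have := Nat.lt_div_mul_add (a := B) (b := Q) hQ1
      exact this
    nlinarith
  have hB1 : 1 ≤ B := le_trans (by nlinarith) hBQ
  obtain ⟨N, hNa, hNb⟩ : ∃ N : ℕ, 2 ^ κ * B₁ ≤ 4 ^ N ∧ 4 ^ N ≤ 4 * (2 ^ κ * B₁) := by
    refine ⟨Nat.log 4 (2 ^ κ * B₁) + 1, (Nat.lt_pow_succ_log_self (by norm_num) _).le, ?_⟩
    rw [pow_succ, mul_comm]
    refine Nat.mul_le_mul_left 4 (Nat.pow_log_le_self 4 ?_)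
    positivity
  have hNN : N₀ ≤ N := by
    have e1 : 4 ^ N₀ ≤ 4 ^ N := hb3.trans (le_trans (Nat.le_mul_of_pos_left _ (by positivity)) hNa)
    exact (Nat.pow_le_pow_iff_right (by norm_num)).1 e1
  obtain ⟨hfin, hBd⟩ := hN₀ N hNN
  refine ⟨(ht_card hCp hpt g B hB1).1, ?_⟩
  set H := {f : (𝓞 F)[X] | Ht g B f ∧ Irreducible (fF f) ∧
    SelM K ((fF f).map (algebraMap F K)) ∧ Min g f} with hHdef
  set G := {f : (𝓞 F)[X] | Fam g B₁ W f₁ S P f ∧ ∀ σ : F →+* ℝ, One σ f} \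
    {f : (𝓞 F)[X] | LBad g N κ S 𝔮 P f} with hGdef
  have hHf : H.Finite := (ht_card hCp hpt g B hB1).1.subset fun f hf => hf.1
  have hGf : G.Finite := (ht_card hCp hpt g B₁ hb1).1.subset fun f hf => hf.1.1.ht
  have hG : c / 2 * (B₁ : ℝ) ^ D ≤ Pn * (G.ncard : ℝ) := by
    refine good_card (C := C) (m := m) (κ := κ) hc hP0 B₁ N (hB₁₀ B₁ hb2) hfin ?_ hm ?_
    · rw [hcard] at hBd
      have e2 : Module.finrank ℚ F * (2 * N * dd g) = 2 * N * D := by rw [hD]; ring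
      rw [e2] at hBd
      exact_mod_cast hBd
    · exact_mod_cast hNb
  have hJ0 : ∀ J ⊆ S, ((Dp J : ℕ) : 𝓞 F) ≠ 0 := by
    intro J hJ
    have : 0 < ∏ q ∈ J, q := Finset.prod_pos fun q hq => hq1 q (hJ hq)
    have h5 : (Dp J : ℕ) ≠ 0 := this.ne'
    exact_mod_cast h5
  have hcard1 := card_fib hGf hHf S (fun J f => f.scaleRoots ((Dp J : ℕ) : 𝓞 F)) (by
      intro f hf
      have hOK : OKG F K S f := by
        refine ⟨fun w hw => ?_, hspl, hH, hf.1.2⟩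
        exact hGF.irr_of hf.1.1.one w (mem_of_ramG hGF (le_max_right _ _) hw)
      obtain ⟨J, hJ, hirr, hsel⟩ := htw K n hn B₁ N W f₁ S 𝔮 h P f
        ((le_max_right _ _).trans hKW) hf₁ hS hf.1.1 hNa hb1 hf.2 hOK
      have hDle : Dp J ≤ Q :=
        Finset.prod_le_prod_of_subset_of_one_le' hJ fun q hq _ => hq1 q hq
      exact ⟨J, hJ, ht_scale hf.1.1.ht ((Nat.mul_le_mul_left _ hDle).trans hBQ), hirr, hsel⟩) (by
      intro J hJ x hx y hy hxy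
      exact scale_inj (hJ0 J hJ) (by rw [hx.1.1.ht.deg, hy.1.1.ht.deg]) hxy)
  rw [hcard] at hcard1
  have hcard' : (G.ncard : ℝ) ≤ 2 ^ m * H.ncard := by exact_mod_cast hcard1
  have hM' : ({f : (𝓞 F)[X] | Ht g B f}.ncard : ℝ) ≤
      (2 * Cp) ^ (2 * g) * (2 * Q) ^ D * (B₁ : ℝ) ^ D := by
    have e1 : ({f : (𝓞 F)[X] | Ht g B f}.ncard : ℝ) ≤ (2 * Cp) ^ (2 * g) * (B : ℝ) ^ D :=
      (ht_card hCp hpt g B hB1).2
    refine e1.trans ?_
    rw [mul_assoc, ← mul_pow]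
    have e2 : (B : ℝ) ≤ 2 * Q * B₁ := by exact_mod_cast hBQ2
    gcongr
  calc c / 2 / (Pn * 2 ^ m * ((2 * Cp) ^ (2 * g) * (2 * Q) ^ D)) *
        ({f : (𝓞 F)[X] | Ht g B f}.ncard : ℝ)
      ≤ c / 2 / (Pn * 2 ^ m * ((2 * Cp) ^ (2 * g) * (2 * Q) ^ D)) *
        ((2 * Cp) ^ (2 * g) * (2 * Q) ^ D * (B₁ : ℝ) ^ D) :=
        mul_le_mul_of_nonneg_left hM' (by positivity)
    _ = c / 2 * (B₁ : ℝ) ^ D / (Pn * 2 ^ m) := by
        field_simp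
    _ ≤ (Pn * (G.ncard : ℝ)) / (Pn * 2 ^ m) := by gcongr
    _ ≤ (Pn * (2 ^ m * H.ncard)) / (Pn * 2 ^ m) := by gcongr
    _ = H.ncard := by field_simp

end Pool.Agent.V7H54.J
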