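import Pool.Agent.V7H54.J.Gf
import Pool.Agent.V7H54.J.LocG
import Pool.Agent.V7H54.FamK

/-!
# A box of polynomials with one real root at every real place
-/

set_option autoImplicit false
set_option linter.all false

open Polynomial NumberField IsDedekindDomain
open scoped Classical

namespace Pool.Agent.V7H54.J

open Pool.Agent.V7H54
open Pool.Agent.N951.PF
open Pool.Agent.N352.PJ (dd pol dis Dy D2)
open Pool.Agent.N352.PF (dg Bal nv rv Bz Bx bxT)
open Pool.Agent.N783.PF (Bd Cg sp rd Ht GoodS GoodF Fam fF)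

theorem pol_map {R R' : Type} [CommRing R] [Nontrivial R] [CommRing R'] [Nontrivial R'] {g : ℕ}
    (φ : R →+* R') (a : Fin (2 * g) → R) : (pol a).map φ = pol fun j => φ (a j) := by
  unfold pol
  simp [Polynomial.map_add, Polynomial.map_sum, Polynomial.map_mul, Polynomial.map_pow]

theorem eval_der {g : ℕ} (b : Fin (2 * g) → ℝ) (x : ℝ) :
    eval x (derivative (pol b)) = (2 * g + 1) * x ^ (2 * g) +
      ∑ j : Fin (2 * g), b j * ((j : ℕ) * x ^ ((j : ℕ) - 1)) := by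
  unfold pol
  simp [eval_finset_sum, derivative_X_pow]

theorem der_pos {g : ℕ} (hg : 1 ≤ g) {B : ℝ} (hB : 16 ≤ B) {b : Fin (2 * g) → ℝ}
    (h1 : ∀ j : Fin (2 * g), (j : ℕ) = 1 → B ^ (2 * g) / 8 - 1 ≤ b j)
    (h2 : ∀ j : Fin (2 * g), 2 ≤ (j : ℕ) → |b j| ≤ B ^ (2 * g + 1 - (j : ℕ)) / (16 * (2 * g) ^ 2))
    (x : ℝ) : 0 < eval x (derivative (pol b)) := by
  rw [eval_der]
  have hm : (0 : ℝ) < 2 * g := by
    have : (1 : ℝ) ≤ g := by exact_mod_cast hg
    linarith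
  have hx0 : 0 ≤ x ^ (2 * g) := by
    rw [pow_mul]
    positivity
  have hxa : |x| ^ (2 * g) = x ^ (2 * g) := by
    rw [pow_mul, pow_mul, sq_abs]
  have hB0 : 0 ≤ B := by linarith
  obtain ⟨j₁, hj₁⟩ : ∃ j₁ : Fin (2 * g), (j₁ : ℕ) = 1 := ⟨⟨1, by omega⟩, rfl⟩
  rw [← Finset.add_sum_erase _ _ (Finset.mem_univ j₁)]
  have hterm : ∀ j ∈ Finset.univ.erase j₁, -((B ^ (2 * g) + x ^ (2 * g)) / (16 * (2 * g))) ≤
      b j * ((j : ℕ) * x ^ ((j : ℕ) - 1)) := by
    intro j hj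
    have hjne : (j : ℕ) ≠ 1 := by
      intro h0
      apply Finset.ne_of_mem_erase hj
      ext
      rw [h0, hj₁]
    rcases Nat.lt_or_ge (j : ℕ) 2 with h3 | h3
    · have h4 : (j : ℕ) = 0 := by omega
      rw [h4]
      simp
      positivity
    · have h5 := h2 j h3
      have h6 : |b j * ((j : ℕ) * x ^ ((j : ℕ) - 1))| ≤
          (B ^ (2 * g) + x ^ (2 * g)) / (16 * (2 * g)) := by
        rw [abs_mul, abs_mul, abs_pow, Nat.abs_cast]
        have h7 : ((j : ℕ) : ℝ) ≤ 2 * g := by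
          have := j.2
          exact_mod_cast this.le
        have h8 : B ^ (2 * g + 1 - (j : ℕ)) * |x| ^ ((j : ℕ) - 1) ≤ B ^ (2 * g) + x ^ (2 * g) := by
          have e : 2 * g = (2 * g + 1 - (j : ℕ)) + ((j : ℕ) - 1) := by
            have := j.2
            omega
          rcases le_total |x| B with h9 | h9
          · calc B ^ (2 * g + 1 - (j : ℕ)) * |x| ^ ((j : ℕ) - 1) ≤
                B ^ (2 * g + 1 - (j : ℕ)) * B ^ ((j : ℕ) - 1) := by gcongr
              _ = B ^ (2 * g) := by rw [← pow_add, ← e]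
              _ ≤ _ := by linarith
          · calc B ^ (2 * g + 1 - (j : ℕ)) * |x| ^ ((j : ℕ) - 1) ≤
                |x| ^ (2 * g + 1 - (j : ℕ)) * |x| ^ ((j : ℕ) - 1) := by gcongr
              _ = |x| ^ (2 * g) := by rw [← pow_add, ← e]
              _ = x ^ (2 * g) := hxa
              _ ≤ _ := by
                have : 0 ≤ B ^ (2 * g) := by positivity
                linarith
        calc |b j| * ((j : ℕ) * |x| ^ ((j : ℕ) - 1)) ≤
            (B ^ (2 * g + 1 - (j : ℕ)) / (16 * (2 * g) ^ 2)) * ((2 * g) * |x| ^ ((j : ℕ) - 1)) := by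
              gcongr
          _ = (B ^ (2 * g + 1 - (j : ℕ)) * |x| ^ ((j : ℕ) - 1)) / (16 * (2 * g)) := by
              field_simp
          _ ≤ _ := by gcongr
      exact (abs_le.1 h6).1
  have hsum : -((B ^ (2 * g) + x ^ (2 * g)) / 16) ≤
      ∑ j ∈ Finset.univ.erase j₁, b j * ((j : ℕ) * x ^ ((j : ℕ) - 1)) := by
    have h10 := Finset.card_nsmul_le_sum _ _ _ hterm
    refine le_trans ?_ h10
    rw [Finset.card_erase_of_mem (Finset.mem_univ _), Finset.card_univ, Fintype.card_fin, nsmul_eq_mul]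
    have h11 : ((2 * g - 1 : ℕ) : ℝ) ≤ 2 * g := by
      have : 2 * g - 1 ≤ 2 * g := by omega
      exact_mod_cast this
    have h12 : 0 ≤ (B ^ (2 * g) + x ^ (2 * g)) / (16 * (2 * g)) := by positivity
    have h13 : ((2 * g - 1 : ℕ) : ℝ) * ((B ^ (2 * g) + x ^ (2 * g)) / (16 * (2 * g))) ≤
        (2 * g) * ((B ^ (2 * g) + x ^ (2 * g)) / (16 * (2 * g))) := by gcongr
    have h14 : (2 * g) * ((B ^ (2 * g) + x ^ (2 * g)) / (16 * (2 * g))) =
        (B ^ (2 * g) + x ^ (2 * g)) / 16 := by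
      field_simp
    rw [h14] at h13
    linarith
  have hb := h1 j₁ hj₁
  have e1 : b j₁ * (((j₁ : ℕ) : ℝ) * x ^ ((j₁ : ℕ) - 1)) = b j₁ := by
    rw [hj₁]
    simp
  rw [e1]
  have hB2 : 256 ≤ B ^ (2 * g) := by
    calc (256 : ℝ) = 16 ^ 2 := by norm_num
      _ ≤ B ^ 2 := by gcongr
      _ ≤ B ^ (2 * g) := pow_le_pow_right₀ (by linarith) (by omega)
  have h15 : 0 ≤ (2 * (g : ℝ)) * x ^ (2 * g) := by positivity
  nlinarith

theorem one_real {g : ℕ} (hg : 1 ≤ g) {B : ℝ} (hB : 16 ≤ B) {b : Fin (2 * g) → ℝ}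
    (h1 : ∀ j : Fin (2 * g), (j : ℕ) = 1 → B ^ (2 * g) / 8 - 1 ≤ b j)
    (h2 : ∀ j : Fin (2 * g), 2 ≤ (j : ℕ) → |b j| ≤ B ^ (2 * g + 1 - (j : ℕ)) / (16 * (2 * g) ^ 2))
    (x y : ℝ) (hx : eval x (pol b) = 0) (hy : eval y (pol b) = 0) : x = y := by
  have hs : StrictMono fun x : ℝ => eval x (pol b) := by
    apply strictMono_of_deriv_pos
    intro x
    rw [Polynomial.deriv]
    exact der_pos hg hB h1 h2 x
  exact hs.injective (hx.trans hy.symm)

end Pool.Agent.V7H54.J
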